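import Pool.Agent.Lib.MP_d8ef8f_an.Ge.Dens
import Pool.Agent.Lib.MP_d8ef8f_an.Gd.B2

set_option autoImplicit false

namespace Pool.Agent.Lib.MP_d8ef8f_an.Gd

open Set Filter Topology MeasureTheory

private theorem b2_dom {N : ℕ} {n : ℕ} {k : Fin N} {ε : ℝ} (hε : 0 < ε) {θ : Sp n → ℝ}
    {v : Fin N → ℝ} {x : Sp n} (hx : 0 < θ x) (hv : ∀ j, 0 ≤ v j) :
    (fun j => v j / θ x + if j = k then ε else 0) ∈
      {s : Fin N → ℝ | 0 < s k ∧ ∀ j, 0 ≤ s j} := by
  constructor
  · have := div_nonneg (hv k) hx.le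
    simp only [if_true]
    linarith
  · intro j
    have := div_nonneg (hv j) hx.le
    show 0 ≤ v j / θ x + if j = k then ε else 0
    split_ifs <;> linarith

theorem p_B2c (a3 : StmA3) : StmB2c := by
  intro n N Ω d m k θ Dθ lθ P B f g h D ε hε T hT u ut Du lu hs t ht
  have hp := B.st.pos
  have cθ : ContinuousOn (fun p : ℝ × Sp n => θ p.2) (T ×ˢ closure Ω) :=
    B.st.lap.c1.cont.comp continuousOn_snd fun p hp => hp.2
  have cs : ContinuousOn (fun p : ℝ × Sp n => sh k ε θ (fun j => u j p.1) p.2)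
      (T ×ˢ closure Ω) := by
    refine continuousOn_pi.2 fun j => ?_
    exact ((hs.cu j).div cθ fun p hp' => (hp _ hp'.2).ne').add continuousOn_const
  have ms : MapsTo (fun p : ℝ × Sp n => sh k ε θ (fun j => u j p.1) p.2) (T ×ˢ closure Ω)
      {s : Fin N → ℝ | 0 < s k ∧ ∀ j, 0 ≤ s j} := by
    intro p hp'
    exact b2_dom hε (hp _ hp'.2) fun j => hs.nonneg j _ hp'.1 _ hp'.2
  have cf : ContinuousOn f {s : Fin N → ℝ | 0 < s k ∧ ∀ j, 0 ≤ s j} := fun s hs' =>
    (D.df s hs'.1 hs'.2).continuousAt.continuousWithinAt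
  have cg : ∀ j, ContinuousOn (g j) {s : Fin N → ℝ | 0 < s k ∧ ∀ j, 0 ≤ s j} := fun j s hs' =>
    (D.dg j s hs'.1 hs'.2).continuousAt.continuousWithinAt
  have key := a3 Ω B.bdd B.isOpen.measurableSet T hT
    (fun t x => θ x ^ 2 * f (sh k ε θ (fun j => u j t) x))
    (fun t x => θ x * ∑ j, g j (sh k ε θ (fun j => u j t) x) * ut j t x)
    ((cθ.pow 2).mul (cf.comp cs ms))
    (cθ.mul (continuousOn_finsetSum _ fun j _ => ((cg j).comp cs ms).mul (hs.ct j)))
    ?_ t ht
  · exact key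
  · intro t ht x hx
    have h0 := hp x hx
    have hm := b2_dom (k := k) hε h0 (v := fun j => u j t x) fun j => hs.nonneg j t ht x hx
    have e1 := D.df (sh k ε θ (fun j => u j t) x) hm.1 hm.2
    have e2 : HasDerivAt (fun t => sh k ε θ (fun j => u j t) x) (fun j => ut j t x / θ x) t := by
      refine hasDerivAt_pi.2 fun j => ?_
      exact ((hs.dt j t ht x hx).div_const (θ x)).add_const _
    have e3 := (e1.comp_hasDerivAt t e2).const_mul (θ x ^ 2)
    refine e3.congr_deriv ?_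
    rw [sum_apply, Finset.mul_sum, Finset.mul_sum]
    refine Finset.sum_congr rfl fun j _ => ?_
    simp only [smul_apply, ContinuousLinearMap.proj_apply, smul_eq_mul]
    field_simp

end Pool.Agent.Lib.MP_d8ef8f_an.Gd
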