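import Pool.Agent.Lib.MP_d8ef8f_an.Ge.Dens

/-!
# Piece B3e: from the energy identity to the inequality (approximate densities)
-/

set_option autoImplicit false

namespace Pool.Agent.Lib.MP_d8ef8f_an.Gd

open Set Filter Topology MeasureTheory

private theorem B3_alg (c C L l r gk ε s e w : ℝ) (hL : 1 ≤ L) (hl0 : 0 ≤ l) (hlL : l ≤ L)
    (hε : 0 < ε) (hεs : ε ≤ s) (hsL : s ≤ L) (hr : |r| ≤ C) (hg : |gk| ≤ C / s)
    (hlr : c * |l - 1| ^ 3 - w ≤ (l - 1) * r) (he : 0 ≤ e) :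
    c * |l - 1| ^ 3 - 5 * L * C * (ε / s) - 2 * C * e - w ≤ (l - ε + e - 1) * (r - ε * gk) := by
  have hs : 0 < s := lt_of_lt_of_le hε hεs
  have hC : 0 ≤ C := le_trans (abs_nonneg _) hr
  have hq0 : 0 < ε / s := div_pos hε hs
  have hq1 : ε / s ≤ 1 := (div_le_one hs).2 hεs
  have hεq : ε = (ε / s) * s := by field_simp
  have hεL : ε ≤ (ε / s) * L := by
    calc ε = (ε / s) * s := hεq
      _ ≤ (ε / s) * L := mul_le_mul_of_nonneg_left hsL hq0.le
  have h1 : |ε * gk| ≤ C * (ε / s) := by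
    rw [abs_mul, abs_of_pos hε]
    calc ε * |gk| ≤ ε * (C / s) := mul_le_mul_of_nonneg_left hg hε.le
      _ = C * (ε / s) := by ring
  have hl1 : |l - 1| ≤ L := abs_le.2 ⟨by linarith, by linarith⟩
  have h2 : |(l - 1) * (ε * gk)| ≤ L * (C * (ε / s)) := by
    rw [abs_mul]
    exact mul_le_mul hl1 h1 (abs_nonneg _) (by linarith)
  have hCq : C * (ε / s) ≤ C := mul_le_of_le_one_right hC hq1
  have h3 : |r - ε * gk| ≤ 2 * C := by
    have := abs_sub r (ε * gk)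
    linarith
  have h4 : |(- ε + e) * (r - ε * gk)| ≤ ((ε / s) * L + e) * (2 * C) := by
    rw [abs_mul]
    apply mul_le_mul _ h3 (abs_nonneg _) (by positivity)
    rw [abs_le]
    constructor <;> linarith
  have h5 := abs_le.1 h2
  have h6 := abs_le.1 h4
  have h7 : (l - ε + e - 1) * (r - ε * gk) =
      (l - 1) * r - (l - 1) * (ε * gk) + (- ε + e) * (r - ε * gk) := by ring
  rw [h7]
  have h8 : ((ε / s) * L + e) * (2 * C) = 2 * (L * (C * (ε / s))) + 2 * C * e := by ring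
  have h9 : 5 * L * C * (ε / s) = 5 * (L * (C * (ε / s))) := by ring
  have h10 : 0 ≤ L * (C * (ε / s)) := by positivity
  rw [h9]
  rw [h8] at h6
  linarith [h5.2, h6.1]

private theorem B3_scale (t t0 t1 A B D W X : ℝ) (ht0 : 0 < t0) (h0 : t0 ≤ t) (h1 : t ≤ t1)
    (hA : 0 ≤ A) (hB : 0 ≤ B) (hD : 0 ≤ D) (hW : 0 ≤ W) (hX : A - B - D - W ≤ X) :
    t0 ^ 3 * A - t1 ^ 3 * B - t1 ^ 3 * D - t1 ^ 3 * W ≤ t ^ 3 * X := by
  have ht : 0 < t := lt_of_lt_of_le ht0 h0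
  have h3 : t0 ^ 3 ≤ t ^ 3 := pow_le_pow_left₀ ht0.le h0 3
  have h4 : t ^ 3 ≤ t1 ^ 3 := pow_le_pow_left₀ ht.le h1 3
  have h5 : t ^ 3 * (A - B - D - W) ≤ t ^ 3 * X := mul_le_mul_of_nonneg_left hX (by positivity)
  have h6 : t0 ^ 3 * A ≤ t ^ 3 * A := mul_le_mul_of_nonneg_right h3 hA
  have h7 : t ^ 3 * B ≤ t1 ^ 3 * B := mul_le_mul_of_nonneg_right h4 hB
  have h8 : t ^ 3 * D ≤ t1 ^ 3 * D := mul_le_mul_of_nonneg_right h4 hD
  have h10 : t ^ 3 * W ≤ t1 ^ 3 * W := mul_le_mul_of_nonneg_right h4 hW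
  have h9 : t ^ 3 * (A - B - D - W) = t ^ 3 * A - t ^ 3 * B - t ^ 3 * D - t ^ 3 * W := by ring
  linarith

private theorem sum_split {N : ℕ} (k : Fin N) (a : Fin N → ℝ) :
    ∑ i, a i = (∑ i ∈ Finset.univ.filter (fun j => j < k), a i) + a k +
      ∑ i ∈ Finset.univ.filter (fun j => k < j), a i := by
  rw [← Finset.sum_filter_add_sum_filter_not Finset.univ (fun j => j < k)]
  have h : Finset.univ.filter (fun j => ¬ j < k) =
      insert k (Finset.univ.filter (fun j => k < j)) := by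
    ext j
    simp only [Finset.mem_filter, Finset.mem_univ, true_and, not_lt, Finset.mem_insert]
    rw [le_iff_eq_or_lt]
    constructor
    · rintro (h | h)
      · exact Or.inl h.symm
      · exact Or.inr h
    · rintro (h | h)
      · exact Or.inl h.symm
      · exact Or.inr h
  rw [h, Finset.sum_insert (by simp)]
  ring

private theorem sq_norm_sum {n : ℕ} (a : ℝ) (v : Sp n) : a * ‖v‖ ^ 2 = ∑ i, a * (v i) ^ 2 := by
  rw [EuclideanSpace.real_norm_sq_eq, Finset.mul_sum]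

private theorem sum_sub_le {n : ℕ} (F G H : Fin n → ℝ) (h : ∀ i, F i - G i ≤ H i) :
    ∑ i, F i - ∑ i, G i ≤ ∑ i, H i := by
  rw [← Finset.sum_sub_distrib]
  exact Finset.sum_le_sum fun i _ => h i

theorem p_B3e (a2 : StmA2) : StmB3e := by
  intro n N Ω d m k θ Dθ lθ P hB M
  have hθc : ContinuousOn θ (closure Ω) := hB.st.lap.c1.cont
  have hDθc : ContinuousOn Dθ (closure Ω) := hB.st.lap.c1.contD
  have hcomp : IsCompact (closure Ω) := hB.bdd.isCompact_closure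
  have hne : (closure Ω).Nonempty := hB.nonempty.closure
  obtain ⟨x₀, hx₀, hmin⟩ := hcomp.exists_isMinOn hne hθc
  obtain ⟨x₁, hx₁, hmax⟩ := hcomp.exists_isMaxOn hne hθc
  have hmin' : ∀ x ∈ closure Ω, θ x₀ ≤ θ x := fun x hx => hmin hx
  have hmax' : ∀ x ∈ closure Ω, θ x ≤ θ x₁ := fun x hx => hmax hx
  have hθx : ∀ x ∈ closure Ω, 0 < θ x := hB.st.pos
  have hθ0 : 0 < θ x₀ := hθx x₀ hx₀
  have hθ1 : 0 < θ x₁ := hθx x₁ hx₁
  obtain ⟨Dm, hDm0, hbmax⟩ : ∃ Dm : ℝ, 0 ≤ Dm ∧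
      ∀ x ∈ closure Ω, ‖(θ x)⁻¹ • Dθ x‖ ^ 2 ≤ Dm := by
    have hbc0 : ContinuousOn (fun x => ‖(θ x)⁻¹ • Dθ x‖ ^ 2) (closure Ω) :=
      ((hθc.inv₀ fun x hx => (hθx x hx).ne').smul hDθc).norm.pow 2
    obtain ⟨x₂, hx₂, hmax2⟩ := hcomp.exists_isMaxOn hne hbc0
    exact ⟨‖(θ x₂)⁻¹ • Dθ x₂‖ ^ 2, sq_nonneg _, fun x hx => hmax2 hx⟩
  refine ⟨N * (max M 0 / θ x₀) + 1, ?_⟩
  intro L hL c C hc hC
  have hL1 : 1 ≤ L := by
    have : 0 ≤ (N : ℝ) * (max M 0 / θ x₀) := by positivity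
    linarith
  have hc3 : 0 < c * θ x₀ ^ 3 := by positivity
  have hc2 : 0 < θ x₀ ^ 2 * c := by positivity
  refine ⟨min (c * θ x₀ ^ 3) (θ x₀ ^ 2 * c), (θ x₁ ^ 3 * (5 * L * C) + θ x₁ ^ 3 * (2 * C / θ x₀))
    + (θ x₁ ^ 3 * C + θ x₁ ^ 2 * C * Dm) * volume.real Ω,
    lt_min hc3 hc2, by positivity, ?_⟩
  intro e he0 he1 f g h hD hbd ε hε hε1 u Du huC hu
  have hCe : 0 ≤ C * e := mul_nonneg hC.le he0.le
  have hCeD : 0 ≤ C * e * Dm := mul_nonneg hCe hDm0
  have huc : ∀ j, ContinuousOn (u j) (closure Ω) := fun j => (huC j).cont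
  have hDuc : ∀ j, ContinuousOn (Du j) (closure Ω) := fun j => (huC j).contD
  -- admissibility
  have hs0 : ∀ x ∈ closure Ω, ∀ j, 0 ≤ sh k ε θ u x j := by
    intro x hx j
    unfold sh
    have h1 : 0 ≤ u j x / θ x := div_nonneg (hu j x hx).1 (hθx x hx).le
    split_ifs
    · linarith
    · linarith
  have hsk : ∀ x, sh k ε θ u x k = u k x / θ x + ε := by
    intro x
    unfold sh
    simp
  have hskε : ∀ x ∈ closure Ω, ε ≤ sh k ε θ u x k := by
    intro x hx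
    rw [hsk]
    have h1 : 0 ≤ u k x / θ x := div_nonneg (hu k x hx).1 (hθx x hx).le
    linarith
  have hSab0 : ∀ x ∈ closure Ω, 0 ≤ Sab k (sh k ε θ u x) := fun x hx =>
    Finset.sum_nonneg fun j _ => hs0 x hx j
  have hsum : ∀ x, ∑ j, sh k ε θ u x j = (∑ j, u j x / θ x) + ε := by
    intro x
    unfold sh
    rw [Finset.sum_add_distrib]
    simp
  have hlow : ∀ x, ∑ j ∈ Finset.univ.filter (fun j => j < k), sh k ε θ u x j =
      (∑ j ∈ Finset.univ.filter (fun j => j < k), u j x) / θ x := by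
    intro x
    rw [Finset.sum_div]
    apply Finset.sum_congr rfl
    intro j hj
    have : j ≠ k := ne_of_lt (Finset.mem_filter.1 hj).2
    unfold sh
    rw [if_neg this, add_zero]
  have hlen : ∀ x, (∑ j, u j x) / θ x =
      len k (sh k ε θ u x) - ε + (∑ j ∈ Finset.univ.filter (fun j => j < k), u j x) / θ x := by
    intro x
    have h1 := sum_split k (fun j => sh k ε θ u x j)
    rw [hsum x, hlow x, ← Finset.sum_div] at h1
    have h2 : len k (sh k ε θ u x) = sh k ε θ u x k +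
        ∑ j ∈ Finset.univ.filter (fun j => k < j), sh k ε θ u x j := rfl
    rw [h2]
    linarith
  have hAdm : ∀ x ∈ closure Ω, Adm k L (sh k ε θ u x) := by
    intro x hx
    refine ⟨lt_of_lt_of_le hε (hskε x hx), hs0 x hx, le_trans ?_ hL⟩
    have hub : ∀ j, u j x / θ x ≤ max M 0 / θ x₀ := by
      intro j
      apply div_le_div₀ (le_max_right _ _) _ hθ0 (hmin' x hx)
      exact le_trans (hu j x hx).2 (le_max_left _ _)
    have h4 : (∑ j, u j x / θ x) ≤ ∑ j : Fin N, max M 0 / θ x₀ :=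
      Finset.sum_le_sum (fun j _ => hub j)
    rw [Finset.sum_const, Finset.card_univ, Fintype.card_fin, nsmul_eq_mul,
      ← Finset.sum_div] at h4
    have h5 : 0 ≤ (∑ j ∈ Finset.univ.filter (fun j => j < k), u j x) / θ x :=
      div_nonneg (Finset.sum_nonneg fun j _ => (hu j x hx).1) (hθx x hx).le
    have h6 := hlen x
    linarith
  -- the radial derivative
  have hrad : ∀ x, ∑ j, (u j x / θ x) * g j (sh k ε θ u x) =
      rad g (sh k ε θ u x) - ε * g k (sh k ε θ u x) := by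
    intro x
    have h1 : rad g (sh k ε θ u x) =
        ∑ j, ((u j x / θ x) * g j (sh k ε θ u x) +
          (if j = k then ε else 0) * g j (sh k ε θ u x)) := by
      apply Finset.sum_congr rfl
      intro j _
      show (u j x / θ x + if j = k then ε else 0) * g j (sh k ε θ u x) = _
      ring
    rw [h1, Finset.sum_add_distrib]
    have h2 : ∑ j, (if j = k then ε else 0) * g j (sh k ε θ u x) = ε * g k (sh k ε θ u x) := by
      simp
    rw [h2]
    ring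
  -- first term
  have hpt1 : ∀ x ∈ closure Ω,
      c * θ x₀ ^ 3 * |len k (sh k ε θ u x) - 1| ^ 3
        - θ x₁ ^ 3 * (5 * L * C) * (ε / (u k x / θ x + ε))
        - θ x₁ ^ 3 * (2 * C / θ x₀) * (∑ j ∈ Finset.univ.filter (fun j => j < k), u j x)
        - θ x₁ ^ 3 * (C * e)
      ≤ θ x ^ 3 * ((∑ i, u i x) / θ x - 1) * ∑ j, (u j x / θ x) * g j (sh k ε θ u x) := by
    intro x hx
    have h2 := hbd.rl _ (hAdm x hx)
    have h3 := hbd.ru _ (hAdm x hx)
    have h4 := hbd.gk _ (hAdm x hx)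
    have hA := hAdm x hx
    have hl : sh k ε θ u x k ≤ L := by
      have h5 : len k (sh k ε θ u x) = sh k ε θ u x k + Sab k (sh k ε θ u x) := rfl
      have h6 := hSab0 x hx
      have h7 := hA.2.2
      linarith
    have hl0 : 0 ≤ len k (sh k ε θ u x) := by
      have h5 : len k (sh k ε θ u x) = sh k ε θ u x k + Sab k (sh k ε θ u x) := rfl
      have h6 := hSab0 x hx
      have h7 := hs0 x hx k
      linarith
    have he0 : 0 ≤ (∑ j ∈ Finset.univ.filter (fun j => j < k), u j x) :=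
      Finset.sum_nonneg fun j _ => (hu j x hx).1
    have he : 0 ≤ (∑ j ∈ Finset.univ.filter (fun j => j < k), u j x) / θ x :=
      div_nonneg he0 (hθx x hx).le
    have h5 := B3_alg c C L (len k (sh k ε θ u x)) (rad g (sh k ε θ u x))
      (g k (sh k ε θ u x)) ε (sh k ε θ u x k)
      ((∑ j ∈ Finset.univ.filter (fun j => j < k), u j x) / θ x) (C * e) hL1 hl0 hA.2.2 hε
      (hskε x hx) hl h3 h4 h2 he
    have h6 := B3_scale (θ x) (θ x₀) (θ x₁) _ _ _ _ _ hθ0 (hmin' x hx) (hmax' x hx)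
      (by positivity) (by
        have : 0 < sh k ε θ u x k := lt_of_lt_of_le hε (hskε x hx)
        positivity) (by positivity) (by positivity) h5
    rw [hlen x, hrad x, mul_assoc (θ x ^ 3)]
    refine le_trans ?_ h6
    rw [hsk x]
    have h7 : (∑ j ∈ Finset.univ.filter (fun j => j < k), u j x) / θ x ≤
        (∑ j ∈ Finset.univ.filter (fun j => j < k), u j x) / θ x₀ :=
      div_le_div_of_nonneg_left he0 hθ0 (hmin' x hx)
    have h8 : θ x₁ ^ 3 * (2 * C * ((∑ j ∈ Finset.univ.filter (fun j => j < k), u j x) / θ x)) ≤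
        θ x₁ ^ 3 * (2 * C * ((∑ j ∈ Finset.univ.filter (fun j => j < k), u j x) / θ x₀)) := by
      apply mul_le_mul_of_nonneg_left _ (by positivity)
      apply mul_le_mul_of_nonneg_left h7 (by positivity)
    have h9 : θ x₁ ^ 3 * (2 * C / θ x₀) * (∑ j ∈ Finset.univ.filter (fun j => j < k), u j x) =
        θ x₁ ^ 3 * (2 * C * ((∑ j ∈ Finset.univ.filter (fun j => j < k), u j x) / θ x₀)) := by
      ring
    have h10 : θ x₁ ^ 3 * (5 * L * C) * (ε / (u k x / θ x + ε)) =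
        θ x₁ ^ 3 * (5 * L * C * (ε / (u k x / θ x + ε))) := by ring
    have h11 : c * θ x₀ ^ 3 * |len k (sh k ε θ u x) - 1| ^ 3 =
        θ x₀ ^ 3 * (c * |len k (sh k ε θ u x) - 1| ^ 3) := by ring
    rw [h9, h10, h11]
    linarith
  -- second term
  have hpt2 : ∀ x ∈ closure Ω,
      θ x₀ ^ 2 * c * ((∑ j ∈ Finset.univ.filter (fun j => k < j), ‖Dsh θ Dθ u Du j x‖ ^ 2)
        + ‖(θ x)⁻¹ • Dθ x‖ ^ 2 * Sab k (sh k ε θ u x) ^ 2
        + (1 - 1 / (sh k ε θ u x k)) ^ 2 * ‖Dsh θ Dθ u Du k x‖ ^ 2)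
        - θ x₁ ^ 2 * (C * e * Dm)
      ≤ θ x ^ 2 * ∑ c : Fin n, Qf d k g h (sh k ε θ u x)
              (fun j => Dsh θ Dθ u Du j x c) (((θ x)⁻¹ • Dθ x) c) := by
    intro x hx
    have h1 := hbd.qf _ (hAdm x hx)
    have h2 : c * ((∑ j ∈ Finset.univ.filter (fun j => k < j), ‖Dsh θ Dθ u Du j x‖ ^ 2)
        + ‖(θ x)⁻¹ • Dθ x‖ ^ 2 * Sab k (sh k ε θ u x) ^ 2
        + (1 - 1 / (sh k ε θ u x k)) ^ 2 * ‖Dsh θ Dθ u Du k x‖ ^ 2) =
        ∑ i : Fin n, c * ((1 - 1 / sh k ε θ u x k) ^ 2 * (Dsh θ Dθ u Du k x i) ^ 2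
          + (∑ j ∈ Finset.univ.filter (fun j => k < j), (Dsh θ Dθ u Du j x i) ^ 2)
          + (((θ x)⁻¹ • Dθ x) i) ^ 2 * Sab k (sh k ε θ u x) ^ 2) := by
      rw [← Finset.mul_sum, Finset.sum_add_distrib, Finset.sum_add_distrib, ← Finset.mul_sum,
        ← Finset.sum_mul, Finset.sum_comm]
      simp only [EuclideanSpace.real_norm_sq_eq]
      ring
    have h3 : ∑ i : Fin n, c * ((1 - 1 / sh k ε θ u x k) ^ 2 * (Dsh θ Dθ u Du k x i) ^ 2
          + (∑ j ∈ Finset.univ.filter (fun j => k < j), (Dsh θ Dθ u Du j x i) ^ 2)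
          + (((θ x)⁻¹ • Dθ x) i) ^ 2 * Sab k (sh k ε θ u x) ^ 2) - C * e * ‖(θ x)⁻¹ • Dθ x‖ ^ 2 ≤
        ∑ c : Fin n, Qf d k g h (sh k ε θ u x)
              (fun j => Dsh θ Dθ u Du j x c) (((θ x)⁻¹ • Dθ x) c) := by
      have hh := sq_norm_sum (C * e) ((θ x)⁻¹ • Dθ x)
      rw [hh]
      exact sum_sub_le _ _ _ fun i => h1 (fun j => Dsh θ Dθ u Du j x i) (((θ x)⁻¹ • Dθ x) i)
    have h3'' : C * e * ‖(θ x)⁻¹ • Dθ x‖ ^ 2 ≤ C * e * Dm :=
      mul_le_mul_of_nonneg_left (hbmax x hx) hCe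
    have h4 : θ x₀ ^ 2 ≤ θ x ^ 2 := pow_le_pow_left₀ hθ0.le (hmin' x hx) 2
    have h5 : 0 ≤ c * ((∑ j ∈ Finset.univ.filter (fun j => k < j), ‖Dsh θ Dθ u Du j x‖ ^ 2)
        + ‖(θ x)⁻¹ • Dθ x‖ ^ 2 * Sab k (sh k ε θ u x) ^ 2
        + (1 - 1 / (sh k ε θ u x k)) ^ 2 * ‖Dsh θ Dθ u Du k x‖ ^ 2) :=
      mul_nonneg hc.le (add_nonneg (add_nonneg (Finset.sum_nonneg fun j _ => sq_nonneg _)
        (mul_nonneg (sq_nonneg _) (sq_nonneg _))) (mul_nonneg (sq_nonneg _) (sq_nonneg _)))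
    rw [mul_assoc]
    rw [← h2] at h3
    have h6 := mul_le_mul_of_nonneg_right h4 h5
    have h7 : θ x ^ 2 ≤ θ x₁ ^ 2 := pow_le_pow_left₀ (hθx x hx).le (hmax' x hx) 2
    have h8 : θ x ^ 2 * (C * e * Dm) ≤ θ x₁ ^ 2 * (C * e * Dm) :=
      mul_le_mul_of_nonneg_right h7 hCeD
    have h9 := mul_le_mul_of_nonneg_left (sub_le_iff_le_add.1 h3) (sq_nonneg (θ x))
    have h10 := mul_le_mul_of_nonneg_left h3'' (sq_nonneg (θ x))
    rw [mul_add] at h9
    linarith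
  -- pointwise
  have hpt : ∀ x ∈ closure Ω,
      - (θ x ^ 3 * ((∑ i, u i x) / θ x - 1) * ∑ j, (u j x / θ x) * g j (sh k ε θ u x))
        - θ x ^ 2 * ∑ c : Fin n, Qf d k g h (sh k ε θ u x)
              (fun j => Dsh θ Dθ u Du j x c) (((θ x)⁻¹ • Dθ x) c)
      ≤ - min (c * θ x₀ ^ 3) (θ x₀ ^ 2 * c) * dis k θ Dθ ε u Du x
        + ((θ x₁ ^ 3 * (5 * L * C) + θ x₁ ^ 3 * (2 * C / θ x₀)) *
            (∑ j ∈ Finset.univ.filter (fun j => j < k), u j x)
        + (θ x₁ ^ 3 * (5 * L * C) + θ x₁ ^ 3 * (2 * C / θ x₀)) *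
            (ε / (u k x / θ x + ε)) + (θ x₁ ^ 3 * (C * e) + θ x₁ ^ 2 * (C * e * Dm))) := by
    intro x hx
    have h1 := hpt1 x hx
    have h2 := hpt2 x hx
    have h3 : 0 ≤ ∑ j ∈ Finset.univ.filter (fun j => j < k), u j x :=
      Finset.sum_nonneg fun j _ => (hu j x hx).1
    have h4 : 0 ≤ ε / (u k x / θ x + ε) := by
      have := hskε x hx
      rw [hsk] at this
      have h5 : 0 < u k x / θ x + ε := by linarith
      positivity
    have h5 : dis k θ Dθ ε u Du x = |len k (sh k ε θ u x) - 1| ^ 3 +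
        ((∑ j ∈ Finset.univ.filter (fun j => k < j), ‖Dsh θ Dθ u Du j x‖ ^ 2)
        + ‖(θ x)⁻¹ • Dθ x‖ ^ 2 * Sab k (sh k ε θ u x) ^ 2
        + (1 - 1 / (sh k ε θ u x k)) ^ 2 * ‖Dsh θ Dθ u Du k x‖ ^ 2) := by
      unfold dis
      ring
    rw [h5]
    have h6 : min (c * θ x₀ ^ 3) (θ x₀ ^ 2 * c) * |len k (sh k ε θ u x) - 1| ^ 3 ≤
        c * θ x₀ ^ 3 * |len k (sh k ε θ u x) - 1| ^ 3 :=
      mul_le_mul_of_nonneg_right (min_le_left _ _) (by positivity)
    have h7 : min (c * θ x₀ ^ 3) (θ x₀ ^ 2 * c) *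
        ((∑ j ∈ Finset.univ.filter (fun j => k < j), ‖Dsh θ Dθ u Du j x‖ ^ 2)
        + ‖(θ x)⁻¹ • Dθ x‖ ^ 2 * Sab k (sh k ε θ u x) ^ 2
        + (1 - 1 / (sh k ε θ u x k)) ^ 2 * ‖Dsh θ Dθ u Du k x‖ ^ 2) ≤
        θ x₀ ^ 2 * c *
        ((∑ j ∈ Finset.univ.filter (fun j => k < j), ‖Dsh θ Dθ u Du j x‖ ^ 2)
        + ‖(θ x)⁻¹ • Dθ x‖ ^ 2 * Sab k (sh k ε θ u x) ^ 2
        + (1 - 1 / (sh k ε θ u x k)) ^ 2 * ‖Dsh θ Dθ u Du k x‖ ^ 2) :=
      mul_le_mul_of_nonneg_right (min_le_right _ _) (by positivity)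
    have h8 : 0 ≤ θ x₁ ^ 3 * (5 * L * C) * (∑ j ∈ Finset.univ.filter (fun j => j < k), u j x) := by
      positivity
    have h9 : 0 ≤ θ x₁ ^ 3 * (2 * C / θ x₀) * (ε / (u k x / θ x + ε)) := by positivity
    rw [neg_mul, mul_add, add_mul, add_mul]
    linarith
  -- continuity
  have hsc : ContinuousOn (fun x => sh k ε θ u x) (closure Ω) := by
    rw [continuousOn_pi]
    intro j
    unfold sh
    exact ((huc j).div hθc (fun x hx => (hθx x hx).ne')).add continuousOn_const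
  have hmaps : MapsTo (fun x => sh k ε θ u x) (closure Ω) {s | 0 < s k ∧ ∀ j, 0 ≤ s j} :=
    fun x hx => ⟨lt_of_lt_of_le hε (hskε x hx), hs0 x hx⟩
  have hgc : ∀ i, ContinuousOn (fun x => g i (sh k ε θ u x)) (closure Ω) := by
    intro i x hx
    have h1 : ContinuousAt (g i) (sh k ε θ u x) :=
      (hD.dg i _ (lt_of_lt_of_le hε (hskε x hx)) (hs0 x hx)).continuousAt
    exact ContinuousAt.comp_continuousWithinAt h1 (hsc x hx)
  have hhc : ∀ i j, ContinuousOn (fun x => h i j (sh k ε θ u x)) (closure Ω) :=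
    fun i j => (hD.ch i j).comp hsc hmaps
  have hsjc : ∀ j, ContinuousOn (fun x => sh k ε θ u x j) (closure Ω) :=
    fun j => continuousOn_pi.1 hsc j
  have hθinv : ContinuousOn (fun x => (θ x)⁻¹) (closure Ω) :=
    hθc.inv₀ fun x hx => (hθx x hx).ne'
  have hbc : ContinuousOn (fun x => (θ x)⁻¹ • Dθ x) (closure Ω) := hθinv.smul hDθc
  have hDshc : ∀ j, ContinuousOn (fun x => Dsh θ Dθ u Du j x) (closure Ω) := by
    intro j
    unfold Dsh
    exact (hθinv.smul (hDuc j)).sub (((huc j).div (hθc.pow 2)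
      (fun x hx => (pow_pos (hθx x hx) 2).ne')).smul hDθc)
  have hcoord : ∀ (v : Sp n → Sp n), ContinuousOn v (closure Ω) → ∀ i,
      ContinuousOn (fun x => v x i) (closure Ω) := by
    intro v hv i
    exact (EuclideanSpace.proj (𝕜 := ℝ) i).continuous.comp_continuousOn hv
  have hQc : ContinuousOn (fun x => ∑ c : Fin n, Qf d k g h (sh k ε θ u x)
              (fun j => Dsh θ Dθ u Du j x c) (((θ x)⁻¹ • Dθ x) c)) (closure Ω) := by
    apply continuousOn_finset_sum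
    intro c _
    unfold Qf
    have hz : ∀ j, ContinuousOn (fun x => Dsh θ Dθ u Du j x c) (closure Ω) :=
      fun j => hcoord _ (hDshc j) c
    have hb : ContinuousOn (fun x => ((θ x)⁻¹ • Dθ x) c) (closure Ω) := hcoord _ hbc c
    refine ContinuousOn.add (ContinuousOn.add ?_ ?_) ?_
    · apply continuousOn_finset_sum
      intro i _
      apply continuousOn_finset_sum
      intro j _
      exact ((continuousOn_const.mul (hhc i j)).mul (hz i)).mul (hz j)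
    · apply hb.mul
      apply continuousOn_finset_sum
      intro i _
      apply continuousOn_const.mul
      apply ((hz i).mul (hgc i)).add
      apply (hsjc i).mul
      apply continuousOn_finset_sum
      intro j _
      exact (hhc i j).mul (hz j)
    · apply (hb.pow 2).mul
      apply continuousOn_finset_sum
      intro i _
      exact continuousOn_const.mul ((hsjc i).mul (hgc i))
  have hSabc : ContinuousOn (fun x => Sab k (sh k ε θ u x)) (closure Ω) := by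
    unfold Sab
    apply continuousOn_finset_sum
    intro j _
    exact hsjc j
  have hlenc : ContinuousOn (fun x => len k (sh k ε θ u x)) (closure Ω) := by
    unfold len
    exact (hsjc k).add hSabc
  have hdisc : ContinuousOn (fun x => dis k θ Dθ ε u Du x) (closure Ω) := by
    unfold dis
    refine ContinuousOn.add (ContinuousOn.add (ContinuousOn.add ?_ ?_) ?_) ?_
    · exact ((hlenc.sub continuousOn_const).abs).pow 3
    · apply continuousOn_finset_sum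
      intro j _
      exact (hDshc j).norm.pow 2
    · exact (hbc.norm.pow 2).mul (hSabc.pow 2)
    · exact ((continuousOn_const.sub (continuousOn_const.div (hsjc k)
        (fun x hx => (lt_of_lt_of_le hε (hskε x hx)).ne'))).pow 2).mul ((hDshc k).norm.pow 2)
  have hUc : ContinuousOn (fun x => ∑ i, u i x) (closure Ω) :=
    continuousOn_finset_sum _ fun i _ => huc i
  have hI1 : IntegrableOn (fun x => θ x ^ 3 * ((∑ i, u i x) / θ x - 1) *
      ∑ j, (u j x / θ x) * g j (sh k ε θ u x)) Ω := by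
    apply a2 Ω hB.bdd
    apply ContinuousOn.mul
    · exact (hθc.pow 3).mul ((hUc.div hθc (fun x hx => (hθx x hx).ne')).sub continuousOn_const)
    · apply continuousOn_finset_sum
      intro j _
      exact ((huc j).div hθc (fun x hx => (hθx x hx).ne')).mul (hgc j)
  have hI2 : IntegrableOn (fun x => θ x ^ 2 * ∑ c : Fin n, Qf d k g h (sh k ε θ u x)
              (fun j => Dsh θ Dθ u Du j x c) (((θ x)⁻¹ • Dθ x) c)) Ω :=
    a2 Ω hB.bdd _ ((hθc.pow 2).mul hQc)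
  have hI3 : IntegrableOn (fun x => dis k θ Dθ ε u Du x) Ω := a2 Ω hB.bdd _ hdisc
  have hI4 : IntegrableOn (fun x => ∑ j ∈ Finset.univ.filter (fun j => j < k), u j x) Ω :=
    a2 Ω hB.bdd _ (continuousOn_finset_sum _ fun i _ => huc i)
  have hI5 : IntegrableOn (fun x => ε / (u k x / θ x + ε)) Ω := by
    apply a2 Ω hB.bdd
    apply continuousOn_const.div
    · exact ((huc k).div hθc (fun x hx => (hθx x hx).ne')).add continuousOn_const
    · intro x hx
      have := hskε x hx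
      rw [hsk] at this
      linarith
  have hI6 : IntegrableOn (fun _ : Sp n => (θ x₁ ^ 3 * (C * e) + θ x₁ ^ 2 * (C * e * Dm) : ℝ)) Ω :=
    a2 Ω hB.bdd _ continuousOn_const
  have hfin := setIntegral_mono_on (hI1.neg.sub hI2)
    ((hI3.const_mul (- min (c * θ x₀ ^ 3) (θ x₀ ^ 2 * c))).add
      (((hI4.const_mul (θ x₁ ^ 3 * (5 * L * C) + θ x₁ ^ 3 * (2 * C / θ x₀))).add
      (hI5.const_mul (θ x₁ ^ 3 * (5 * L * C) + θ x₁ ^ 3 * (2 * C / θ x₀)))).add hI6))
    hB.isOpen.measurableSet (fun x hx => hpt x (subset_closure hx))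
  have e1 : ∫ x in Ω, (- (θ x ^ 3 * ((∑ i, u i x) / θ x - 1) *
      ∑ j, (u j x / θ x) * g j (sh k ε θ u x))
        - θ x ^ 2 * ∑ c : Fin n, Qf d k g h (sh k ε θ u x)
              (fun j => Dsh θ Dθ u Du j x c) (((θ x)⁻¹ • Dθ x) c)) =
      - (∫ x in Ω, θ x ^ 3 * ((∑ i, u i x) / θ x - 1) *
              ∑ j, (u j x / θ x) * g j (sh k ε θ u x))
          - (∫ x in Ω, θ x ^ 2 * ∑ c : Fin n, Qf d k g h (sh k ε θ u x)
              (fun j => Dsh θ Dθ u Du j x c) (((θ x)⁻¹ • Dθ x) c)) := by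
    have hI1n : IntegrableOn (fun x => - (θ x ^ 3 * ((∑ i, u i x) / θ x - 1) *
      ∑ j, (u j x / θ x) * g j (sh k ε θ u x))) Ω := hI1.neg
    rw [integral_sub hI1n hI2, integral_neg]
  have e2 : ∫ x in Ω, (- min (c * θ x₀ ^ 3) (θ x₀ ^ 2 * c) * dis k θ Dθ ε u Du x
        + ((θ x₁ ^ 3 * (5 * L * C) + θ x₁ ^ 3 * (2 * C / θ x₀)) *
            (∑ j ∈ Finset.univ.filter (fun j => j < k), u j x)
        + (θ x₁ ^ 3 * (5 * L * C) + θ x₁ ^ 3 * (2 * C / θ x₀)) *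
            (ε / (u k x / θ x + ε)) + (θ x₁ ^ 3 * (C * e) + θ x₁ ^ 2 * (C * e * Dm)))) =
      - min (c * θ x₀ ^ 3) (θ x₀ ^ 2 * c) * Dis Ω k θ Dθ ε u Du
        + ((θ x₁ ^ 3 * (5 * L * C) + θ x₁ ^ 3 * (2 * C / θ x₀)) *
            (∫ x in Ω, ∑ j ∈ Finset.univ.filter (fun j => j < k), u j x)
        + (θ x₁ ^ 3 * (5 * L * C) + θ x₁ ^ 3 * (2 * C / θ x₀)) *
            (∫ x in Ω, ε / (u k x / θ x + ε)) +
            volume.real Ω * (θ x₁ ^ 3 * (C * e) + θ x₁ ^ 2 * (C * e * Dm))) := by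
    have hI45 : IntegrableOn (fun x => (θ x₁ ^ 3 * (5 * L * C) + θ x₁ ^ 3 * (2 * C / θ x₀)) *
            (∑ j ∈ Finset.univ.filter (fun j => j < k), u j x)
        + (θ x₁ ^ 3 * (5 * L * C) + θ x₁ ^ 3 * (2 * C / θ x₀)) *
            (ε / (u k x / θ x + ε))) Ω := (hI4.const_mul _).add (hI5.const_mul _)
    have hI456 : IntegrableOn (fun x => (θ x₁ ^ 3 * (5 * L * C) + θ x₁ ^ 3 * (2 * C / θ x₀)) *
            (∑ j ∈ Finset.univ.filter (fun j => j < k), u j x)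
        + (θ x₁ ^ 3 * (5 * L * C) + θ x₁ ^ 3 * (2 * C / θ x₀)) *
            (ε / (u k x / θ x + ε)) + (θ x₁ ^ 3 * (C * e) + θ x₁ ^ 2 * (C * e * Dm))) Ω :=
      hI45.add hI6
    rw [integral_add (hI3.const_mul _) hI456, integral_add hI45 hI6,
      integral_add (hI4.const_mul _) (hI5.const_mul _), integral_const_mul, integral_const_mul,
      integral_const_mul, setIntegral_const, smul_eq_mul]
    rfl
  have e3 : ∫ x in Ω, (- (θ x ^ 3 * ((∑ i, u i x) / θ x - 1) *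
      ∑ j, (u j x / θ x) * g j (sh k ε θ u x))
        - θ x ^ 2 * ∑ c : Fin n, Qf d k g h (sh k ε θ u x)
              (fun j => Dsh θ Dθ u Du j x c) (((θ x)⁻¹ • Dθ x) c)) ≤
      ∫ x in Ω, (- min (c * θ x₀ ^ 3) (θ x₀ ^ 2 * c) * dis k θ Dθ ε u Du x
        + ((θ x₁ ^ 3 * (5 * L * C) + θ x₁ ^ 3 * (2 * C / θ x₀)) *
            (∑ j ∈ Finset.univ.filter (fun j => j < k), u j x)
        + (θ x₁ ^ 3 * (5 * L * C) + θ x₁ ^ 3 * (2 * C / θ x₀)) *
            (ε / (u k x / θ x + ε)) + (θ x₁ ^ 3 * (C * e) + θ x₁ ^ 2 * (C * e * Dm)))) := hfin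
  rw [e1, e2] at e3
  have hV : 0 ≤ volume.real Ω := measureReal_nonneg
  have n1 : 0 ≤ ∫ x in Ω, ∑ j ∈ Finset.univ.filter (fun j => j < k), u j x :=
    setIntegral_nonneg hB.isOpen.measurableSet fun x hx =>
      Finset.sum_nonneg fun j _ => (hu j x (subset_closure hx)).1
  have n2 : 0 ≤ ∫ x in Ω, ε / (u k x / θ x + ε) := by
    refine setIntegral_nonneg hB.isOpen.measurableSet fun x hx => ?_
    have := hskε x (subset_closure hx)
    rw [hsk] at this
    have h5 : 0 < u k x / θ x + ε := by linarith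
    positivity
  have hK2 : 0 ≤ (θ x₁ ^ 3 * C + θ x₁ ^ 2 * C * Dm) * volume.real Ω := by positivity
  have m1 := mul_nonneg hK2 n1
  have m2 := mul_nonneg hK2 n2
  have m3 : 0 ≤ (θ x₁ ^ 3 * (5 * L * C) + θ x₁ ^ 3 * (2 * C / θ x₀)) * e := by positivity
  have m4 : volume.real Ω * (θ x₁ ^ 3 * (C * e) + θ x₁ ^ 2 * (C * e * Dm)) =
      (θ x₁ ^ 3 * C + θ x₁ ^ 2 * C * Dm) * volume.real Ω * e := by ring
  rw [m4] at e3
  rw [add_mul, add_mul, add_mul]
  linarith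

end Pool.Agent.Lib.MP_d8ef8f_an.Gd
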