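import Pool.Agent.Lib.MP_d8ef8f_an.Ge.Dens

set_option autoImplicit false

namespace Pool.Agent.Lib.MP_d8ef8f_an.Gd

open Set Filter Topology MeasureTheory

private theorem c_comp (a1 : StmA1) {n : ℕ} {Ω : Set (Sp n)} (hΩ : IsOpen Ω) {φ : Sp n → ℝ}
    {Dφ : Sp n → Sp n} (h : C1 Ω φ Dφ) {G G' : ℝ → ℝ}
    (hG : ∀ x ∈ closure Ω, HasDerivAt G (G' (φ x)) (φ x))
    (hc : ContinuousOn (fun x => G' (φ x)) (closure Ω)) :
    C1 Ω (fun x => G (φ x)) (fun x => G' (φ x) • Dφ x) := by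
  have h1 := a1 (ι := Unit) Ω hΩ (fun _ => φ) (fun _ => Dφ) (fun _ => h)
    (fun p => G (p ())) (fun _ p => G' (p ())) (by
      intro x hx
      have h2 := (hG x hx).comp_hasFDerivAt (f := fun p : Unit → ℝ => p ()) (fun _ => φ x)
        (hasFDerivAt_apply (𝕜 := ℝ) (F' := fun _ : Unit => ℝ) () _)
      refine (h2.congr_of_eventuallyEq (Eventually.of_forall fun p => rfl)).congr_fderiv ?_
      ext v
      simp) (fun _ => hc)
  simpa using h1

private theorem c_div (a1 : StmA1) {n : ℕ} {Ω : Set (Sp n)} (hΩ : IsOpen Ω) {φ θ : Sp n → ℝ}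
    {Dφ Dθ : Sp n → Sp n} (h : C1 Ω φ Dφ) (hθ : C1 Ω θ Dθ) (pos : ∀ x ∈ closure Ω, 0 < θ x) :
    C1 Ω (fun x => φ x / θ x) (fun x => (θ x)⁻¹ • Dφ x - (φ x / θ x ^ 2) • Dθ x) := by
  have h1 := a1 (ι := Bool) Ω hΩ (fun b => cond b φ θ) (fun b => cond b Dφ Dθ)
    (fun b => by cases b; exacts [hθ, h])
    (fun p => p true / p false) (fun b p => cond b (p false)⁻¹ (-(p true / p false ^ 2))) (by
      intro x hx
      have hp := (pos x hx).ne'
      have h2 := (hasFDerivAt_apply (𝕜 := ℝ) (F' := fun _ : Bool => ℝ) true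
        (fun b => (cond b φ θ) x)).fun_mul ((hasDerivAt_inv (x := θ x) hp).comp_hasFDerivAt
          (f := fun p : Bool → ℝ => p false) (fun b => (cond b φ θ) x) (hasFDerivAt_apply false _))
      refine (h2.congr_of_eventuallyEq (Eventually.of_forall fun p => ?_)).congr_fderiv ?_
      · simp [div_eq_mul_inv]
      · ext v
        simp
        field_simp
        ring) (by
      intro b
      have c1 := hθ.cont
      have c2 := h.cont
      cases b
      · simp only [cond_true, cond_false]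
        exact (c2.div (c1.pow 2) fun x hx => pow_ne_zero 2 (pos x hx).ne').neg
      · simp only [cond_true, cond_false]
        exact c1.inv₀ fun x hx => (pos x hx).ne')
  simpa [sub_eq_add_neg] using h1

private theorem c_int_le (a2 : StmA2) {n : ℕ} {Ω : Set (Sp n)} (hΩ : IsOpen Ω)
    (hb : Bornology.IsBounded Ω) {H F1 F2 F3 : Sp n → ℝ} (hH : ContinuousOn H (closure Ω))
    (h1 : ContinuousOn F1 (closure Ω)) (h2 : ContinuousOn F2 (closure Ω))
    (h3 : ContinuousOn F3 (closure Ω)) (k1 k2 k3 k0 : ℝ)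
    (h : ∀ x ∈ closure Ω, H x ≤ k1 * F1 x + k2 * F2 x + k3 * F3 x + k0) :
    ∫ x in Ω, H x ≤ k1 * (∫ x in Ω, F1 x) + k2 * (∫ x in Ω, F2 x) + k3 * (∫ x in Ω, F3 x) +
      k0 * volume.real Ω := by
  have i1 := (a2 Ω hb F1 h1).const_mul k1
  have i2 := (a2 Ω hb F2 h2).const_mul k2
  have i3 := (a2 Ω hb F3 h3).const_mul k3
  have i0 : IntegrableOn (fun _ : Sp n => k0) Ω := integrableOn_const hb.measure_lt_top.ne
  have e := setIntegral_mono_on (a2 Ω hb H hH) (((i1.add i2).add i3).add i0) hΩ.measurableSet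
    fun x hx => h x (subset_closure hx)
  refine e.trans (le_of_eq ?_)
  have e1 : ∫ x in Ω, ((k1 * F1 x + k2 * F2 x) + k3 * F3 x) + k0 =
      (∫ x in Ω, (k1 * F1 x + k2 * F2 x) + k3 * F3 x) + ∫ _ in Ω, k0 :=
    integral_add ((i1.add i2).add i3) i0
  have e2 : ∫ x in Ω, (k1 * F1 x + k2 * F2 x) + k3 * F3 x =
      (∫ x in Ω, k1 * F1 x + k2 * F2 x) + ∫ x in Ω, k3 * F3 x :=
    integral_add (i1.add i2) i3
  have e3 : ∫ x in Ω, k1 * F1 x + k2 * F2 x =
      (∫ x in Ω, k1 * F1 x) + ∫ x in Ω, k2 * F2 x := integral_add i1 i2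
  change ∫ x in Ω, ((k1 * F1 x + k2 * F2 x) + k3 * F3 x) + k0 = _
  rw [e1, e2, e3, integral_const_mul, integral_const_mul, integral_const_mul, setIntegral_const,
    smul_eq_mul, mul_comm k0]

private theorem c_sq {y δ : ℝ} (hy : 0 ≤ y) (hδ : 0 < δ) : y ^ 2 ≤ δ ^ 2 + y ^ 3 / δ := by
  have h3 : 0 ≤ y ^ 3 := pow_nonneg hy 3
  rcases le_total y δ with h | h
  · have h1 : y ^ 2 ≤ δ ^ 2 := pow_le_pow_left₀ hy h 2
    have h2 : 0 ≤ y ^ 3 / δ := div_nonneg h3 hδ.le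
    linarith
  · have h1 : y ^ 2 ≤ y ^ 3 / δ := by
      rw [le_div_iff₀ hδ]
      have : y ^ 2 * δ ≤ y ^ 2 * y := mul_le_mul_of_nonneg_left h (sq_nonneg y)
      calc y ^ 2 * δ ≤ y ^ 2 * y := this
        _ = y ^ 3 := by ring
    have h2 : 0 ≤ δ ^ 2 := sq_nonneg δ
    linarith

private theorem c_Gl_nonneg {p : ℝ} (hp : 0 < p) : 0 ≤ Gl p := by
  have := Real.log_le_sub_one_of_pos hp
  unfold Gl
  linarith

private theorem c_Gl {p : ℝ} (hp : 0 < p) (c : ℝ) :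
    c ^ 2 * (1 - 4 * (p - 1) ^ 2) ≤ 2 * (Gl p - c) ^ 2 + 2 * (p - 1) ^ 2 := by
  have h0 : 0 ≤ 2 * (Gl p - c) ^ 2 + 2 * (p - 1) ^ 2 := by positivity
  by_cases h : 1 - 4 * (p - 1) ^ 2 ≤ 0
  · exact (mul_nonpos_of_nonneg_of_nonpos (sq_nonneg c) h).trans h0
  · push Not at h
    have hp2 : 1 / 2 ≤ p := by
      by_contra hlt
      push Not at hlt
      nlinarith
    have h1 : Gl p ≤ 2 * (p - 1) ^ 2 := by
      have h2 := Real.log_le_sub_one_of_pos (inv_pos.2 hp)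
      rw [Real.log_inv] at h2
      have h3 : Gl p ≤ (p - 1) ^ 2 * p⁻¹ := by
        unfold Gl
        have h4 : (p - 1) ^ 2 * p⁻¹ = p - 2 + p⁻¹ := by
          field_simp
          ring
        rw [h4]
        linarith
      have h5 : p⁻¹ ≤ 2 := by
        rw [inv_le_comm₀ hp (by norm_num)]
        linarith
      calc Gl p ≤ (p - 1) ^ 2 * p⁻¹ := h3
        _ ≤ (p - 1) ^ 2 * 2 := mul_le_mul_of_nonneg_left h5 (sq_nonneg _)
        _ = 2 * (p - 1) ^ 2 := by ring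
    have h2 := c_Gl_nonneg hp
    have h6 : Gl p ^ 2 ≤ (p - 1) ^ 2 := by
      have h7 : Gl p ^ 2 ≤ (2 * (p - 1) ^ 2) ^ 2 := pow_le_pow_left₀ h2 h1 2
      have h8 : (2 * (p - 1) ^ 2) ^ 2 ≤ (p - 1) ^ 2 := by nlinarith [sq_nonneg (p - 1)]
      exact h7.trans h8
    have h9 : c ^ 2 ≤ 2 * (Gl p - c) ^ 2 + 2 * Gl p ^ 2 := by
      nlinarith [sq_nonneg (2 * Gl p - c)]
    have h10 : c ^ 2 * (1 - 4 * (p - 1) ^ 2) ≤ c ^ 2 := by
      nlinarith [mul_nonneg (sq_nonneg c) (sq_nonneg (p - 1))]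
    linarith

private theorem c_am {y δ : ℝ} (hδ : 0 < δ) : |y| ≤ (y ^ 2 + δ ^ 2) / (2 * δ) := by
  rw [le_div_iff₀ (by positivity)]
  nlinarith [sq_nonneg (|y| - δ), sq_abs y]

private theorem c_core (a2 : StmA2) {n N : ℕ} {Ω : Set (Sp n)} (hΩ : IsOpen Ω)
    (hb : Bornology.IsBounded Ω) (F : Finset (Fin N)) (s w : Fin N → Sp n → ℝ)
    (b p q : Sp n → ℝ) (c : Fin N → ℝ) (cG P B β ν V C1' : ℝ) (hV : V = volume.real Ω)
    (hV0 : 0 < V) (hs : ∀ j, ContinuousOn (s j) (closure Ω))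
    (hw : ∀ j, ContinuousOn (w j) (closure Ω)) (hbc : ContinuousOn b (closure Ω))
    (hp : ContinuousOn p (closure Ω)) (hq : ContinuousOn q (closure Ω))
    (hw0 : ∀ j, ∀ x ∈ closure Ω, 0 ≤ w j x) (hb0 : ∀ x ∈ closure Ω, 0 ≤ b x ∧ b x ≤ B)
    (hq0 : ∀ x ∈ closure Ω, 0 ≤ q x) (hp0 : ∀ x ∈ closure Ω, 0 < p x) (hB : 0 ≤ B)
    (hP : 0 < P) (hβ : β = ∫ x in Ω, b x) (hβ0 : 0 < β)
    (h1 : ∀ j ∈ F, ∫ x in Ω, (s j x - c j) ^ 2 ≤ P * ∫ x in Ω, w j x)
    (h2 : ∫ x in Ω, (Gl (p x) - cG) ^ 2 ≤ P * ∫ x in Ω, q x)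
    (h3 : ∫ x in Ω, (|p x + (∑ j ∈ F, s j x) - 1| ^ 3 + (∑ j ∈ F, w j x) +
      b x * (∑ j ∈ F, s j x) ^ 2 + q x) ≤ ν)
    (hC1 : C1' = 2 * F.card * P + 2 * V * (2 + 2 * B * F.card * P) / β)
    (δ δ2 κ : ℝ) (hδ : 0 < δ) (hδ2 : 0 < δ2)
    (hκ : κ = 2 * δ2 ^ 2 * V + (2 / δ2 + 2 * C1') * ν) (hκV : κ ≤ V / 8) :
    ∫ x in Ω, (Gl (p x) + |p x - 1| + ∑ j ∈ F, s j x) ≤
      (5 * P * ν + 5 * κ + C1' * ν + 4 * δ ^ 2 * V) / (2 * δ) := by
  have cS : ContinuousOn (fun x => ∑ j ∈ F, s j x) (closure Ω) :=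
    continuousOn_finsetSum _ fun j _ => hs j
  have cW : ContinuousOn (fun x => ∑ j ∈ F, w j x) (closure Ω) :=
    continuousOn_finsetSum _ fun j _ => hw j
  have cL : ContinuousOn (fun x => |p x + (∑ j ∈ F, s j x) - 1| ^ 3) (closure Ω) :=
    (((hp.add cS).sub continuousOn_const).abs).pow 3
  have cL2 : ContinuousOn (fun x => (p x + (∑ j ∈ F, s j x) - 1) ^ 2) (closure Ω) :=
    ((hp.add cS).sub continuousOn_const).pow 2
  have cbS : ContinuousOn (fun x => b x * (∑ j ∈ F, s j x) ^ 2) (closure Ω) :=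
    hbc.mul (cS.pow 2)
  have cD : ContinuousOn (fun x => |p x + (∑ j ∈ F, s j x) - 1| ^ 3 + (∑ j ∈ F, w j x) +
      b x * (∑ j ∈ F, s j x) ^ 2 + q x) (closure Ω) := ((cL.add cW).add cbS).add hq
  have cG' : ContinuousOn (fun x => Gl (p x)) (closure Ω) :=
    (hp.sub continuousOn_const).sub (hp.log fun x hx => (hp0 x hx).ne')
  have cGc : ContinuousOn (fun x => (Gl (p x) - cG) ^ 2) (closure Ω) :=
    (cG'.sub continuousOn_const).pow 2
  have cp1 : ContinuousOn (fun x => (p x - 1) ^ 2) (closure Ω) :=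
    (hp.sub continuousOn_const).pow 2
  have cS2 : ContinuousOn (fun x => (∑ j ∈ F, s j x) ^ 2) (closure Ω) := cS.pow 2
  have c0 : ContinuousOn (fun _ : Sp n => (0:ℝ)) (closure Ω) := continuousOn_const
  have cSc : ∀ r : ℝ, ContinuousOn (fun x => ((∑ j ∈ F, s j x) - r) ^ 2) (closure Ω) := fun r =>
    (cS.sub continuousOn_const).pow 2
  have nL : ∀ x, 0 ≤ |p x + (∑ j ∈ F, s j x) - 1| ^ 3 := fun x => by positivity
  have nW : ∀ x ∈ closure Ω, 0 ≤ ∑ j ∈ F, w j x := fun x hx =>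
    Finset.sum_nonneg fun j _ => hw0 j x hx
  have nb : ∀ x ∈ closure Ω, 0 ≤ b x * (∑ j ∈ F, s j x) ^ 2 := fun x hx =>
    mul_nonneg (hb0 x hx).1 (sq_nonneg _)
  -- the pieces of the dissipation
  have d1 : ∫ x in Ω, |p x + (∑ j ∈ F, s j x) - 1| ^ 3 ≤ ν := by
    have := c_int_le a2 hΩ hb cL cD c0 c0 1 0 0 0 (fun x hx => by
      have := nW x hx; have := nb x hx; have := hq0 x hx; linarith)
    linarith
  have d2 : ∫ x in Ω, ∑ j ∈ F, w j x ≤ ν := by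
    have := c_int_le a2 hΩ hb cW cD c0 c0 1 0 0 0 (fun x hx => by
      have := nL x; have := nb x hx; have := hq0 x hx; linarith)
    linarith
  have d3 : ∫ x in Ω, b x * (∑ j ∈ F, s j x) ^ 2 ≤ ν := by
    have := c_int_le a2 hΩ hb cbS cD c0 c0 1 0 0 0 (fun x hx => by
      have := nL x; have := nW x hx; have := hq0 x hx; linarith)
    linarith
  have d4 : ∫ x in Ω, q x ≤ ν := by
    have := c_int_le a2 hΩ hb hq cD c0 c0 1 0 0 0 (fun x hx => by
      have := nL x; have := nW x hx; have := nb x hx; linarith)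
    linarith
  -- the mean of `S`
  have e1 : ∫ x in Ω, ((∑ j ∈ F, s j x) - ∑ j ∈ F, c j) ^ 2 ≤ F.card * P * ν := by
    have i1 : ∀ j ∈ F, ContinuousOn (fun x => (s j x - c j) ^ 2) (closure Ω) := fun j _ =>
      ((hs j).sub continuousOn_const).pow 2
    have h4 : ∫ x in Ω, ∑ j ∈ F, (s j x - c j) ^ 2 ≤ P * ν := by
      rw [integral_finsetSum _ fun j hj => a2 Ω hb _ (i1 j hj)]
      calc ∑ j ∈ F, ∫ x in Ω, (s j x - c j) ^ 2 ≤ ∑ j ∈ F, P * ∫ x in Ω, w j x :=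
            Finset.sum_le_sum h1
        _ = P * ∫ x in Ω, ∑ j ∈ F, w j x := by
            rw [integral_finsetSum _ fun j hj => a2 Ω hb _ (hw j), Finset.mul_sum]
        _ ≤ P * ν := mul_le_mul_of_nonneg_left d2 hP.le
    have h5 := c_int_le a2 hΩ hb (cSc (∑ j ∈ F, c j)) (continuousOn_finsetSum F i1) c0 c0
      (F.card : ℝ) 0 0 0 (fun x hx => by
        have h6 := sq_sum_le_card_mul_sum_sq (s := F) (f := fun j => s j x - c j)
        rw [Finset.sum_sub_distrib] at h6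
        linarith)
    have h7 : (F.card : ℝ) * (∫ x in Ω, ∑ j ∈ F, (s j x - c j) ^ 2) ≤ F.card * (P * ν) :=
      mul_le_mul_of_nonneg_left h4 (Nat.cast_nonneg _)
    linarith
  set Sb := ∑ j ∈ F, c j with hSb
  have e2 : Sb ^ 2 * β ≤ (2 + 2 * B * F.card * P) * ν := by
    have h4 := c_int_le a2 hΩ hb (hbc.const_smul (Sb ^ 2)) cbS (cSc Sb) c0 2 (2 * B) 0 0
      (fun x hx => by
        obtain ⟨h5, h6⟩ := hb0 x hx
        have h7 := mul_le_mul_of_nonneg_right h6 (sq_nonneg ((∑ j ∈ F, s j x) - Sb))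
        have h8 : Sb ^ 2 ≤ 2 * (∑ j ∈ F, s j x) ^ 2 + 2 * ((∑ j ∈ F, s j x) - Sb) ^ 2 := by
          nlinarith [sq_nonneg (2 * (∑ j ∈ F, s j x) - Sb)]
        have h9 := mul_le_mul_of_nonneg_left h8 h5
        simp only [Pi.smul_apply, smul_eq_mul]
        nlinarith)
    have h5 : ∫ x in Ω, (Sb ^ 2 • b) x = Sb ^ 2 * β := by
      rw [hβ]
      simp only [Pi.smul_apply, smul_eq_mul]
      rw [integral_const_mul]
    rw [h5] at h4
    have h6 : 2 * B * (∫ x in Ω, ((∑ j ∈ F, s j x) - Sb) ^ 2) ≤ 2 * B * (F.card * P * ν) :=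
      mul_le_mul_of_nonneg_left e1 (by positivity)
    linarith
  have e3 : ∫ x in Ω, (∑ j ∈ F, s j x) ^ 2 ≤ C1' * ν := by
    have h4 := c_int_le a2 hΩ hb cS2 (cSc Sb) c0 c0 2 0 0 (2 * Sb ^ 2)
      (fun x hx => by nlinarith [sq_nonneg ((∑ j ∈ F, s j x) - 2 * Sb)])
    have h5 : Sb ^ 2 ≤ (2 + 2 * B * F.card * P) * ν / β := by
      rw [le_div_iff₀ hβ0]
      exact e2
    have h6 : C1' * ν = 2 * (F.card * P * ν) + 2 * ((2 + 2 * B * F.card * P) * ν / β) * V := by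
      rw [hC1]
      field_simp
    rw [h6]
    have h7 : 2 * Sb ^ 2 * V ≤ 2 * ((2 + 2 * B * F.card * P) * ν / β) * V :=
      mul_le_mul_of_nonneg_right (by linarith) hV0.le
    rw [← hV] at h4
    linarith
  have e4 : ∫ x in Ω, (p x + (∑ j ∈ F, s j x) - 1) ^ 2 ≤ δ2 ^ 2 * V + ν / δ2 := by
    have h4 := c_int_le a2 hΩ hb cL2 cL c0 c0 (1 / δ2) 0 0 (δ2 ^ 2)
      (fun x hx => by
        have := c_sq (abs_nonneg (p x + (∑ j ∈ F, s j x) - 1)) hδ2
        rw [sq_abs] at this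
        rw [one_div, inv_mul_eq_div]
        linarith)
    have h5 : 1 / δ2 * (∫ x in Ω, |p x + (∑ j ∈ F, s j x) - 1| ^ 3) ≤ 1 / δ2 * ν :=
      mul_le_mul_of_nonneg_left d1 (by positivity)
    rw [← hV] at h4
    have h6 : ν / δ2 = 1 / δ2 * ν := by ring
    rw [h6]
    linarith
  have e5 : ∫ x in Ω, (p x - 1) ^ 2 ≤ κ := by
    have h4 := c_int_le a2 hΩ hb cp1 cL2 cS2 c0 2 2 0 0
      (fun x hx => by
        nlinarith [sq_nonneg ((p x + (∑ j ∈ F, s j x) - 1) + (∑ j ∈ F, s j x))])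
    have h6 : κ = 2 * (δ2 ^ 2 * V + ν / δ2) + 2 * (C1' * ν) := by
      rw [hκ]
      ring
    rw [h6]
    linarith
  have e6 : ∫ x in Ω, (Gl (p x) - cG) ^ 2 ≤ P * ν :=
    h2.trans (mul_le_mul_of_nonneg_left d4 hP.le)
  have e7 : cG ^ 2 * V ≤ 4 * (P * ν) + 4 * κ := by
    have h4 := c_int_le a2 hΩ hb (H := fun _ => cG ^ 2) continuousOn_const cGc cp1 c0 2
      (2 + 4 * cG ^ 2) 0 0 (fun x hx => by
        have := c_Gl (hp0 x hx) cG
        linarith)
    rw [setIntegral_const, smul_eq_mul, ← hV] at h4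
    have h5 : (2 + 4 * cG ^ 2) * (∫ x in Ω, (p x - 1) ^ 2) ≤ (2 + 4 * cG ^ 2) * κ :=
      mul_le_mul_of_nonneg_left e5 (by positivity)
    have h6 : 4 * cG ^ 2 * κ ≤ 4 * cG ^ 2 * (V / 8) :=
      mul_le_mul_of_nonneg_left hκV (by positivity)
    nlinarith
  -- the conclusion
  have e8 := c_int_le a2 hΩ hb (H := fun x => Gl (p x) + |p x - 1| + ∑ j ∈ F, s j x)
    ((cG'.add (hp.sub continuousOn_const).abs).add cS) cGc cp1 cS2 (1 / (2 * δ)) (1 / (2 * δ))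
    (1 / (2 * δ)) ((cG ^ 2 + 4 * δ ^ 2) / (2 * δ)) (fun x hx => by
      have i1 := c_am (y := Gl (p x) - cG) hδ
      have i2 := c_am (y := cG) hδ
      have i3 := c_am (y := p x - 1) hδ
      have i4 := c_am (y := ∑ j ∈ F, s j x) hδ
      have i5 := le_abs_self (Gl (p x) - cG)
      have i6 := le_abs_self cG
      have i7 := le_abs_self (∑ j ∈ F, s j x)
      have i8 : 1 / (2 * δ) * (Gl (p x) - cG) ^ 2 + 1 / (2 * δ) * (p x - 1) ^ 2 +
        1 / (2 * δ) * (∑ j ∈ F, s j x) ^ 2 + (cG ^ 2 + 4 * δ ^ 2) / (2 * δ) =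
        ((Gl (p x) - cG) ^ 2 + δ ^ 2) / (2 * δ) + (cG ^ 2 + δ ^ 2) / (2 * δ) +
        ((p x - 1) ^ 2 + δ ^ 2) / (2 * δ) + ((∑ j ∈ F, s j x) ^ 2 + δ ^ 2) / (2 * δ) := by
        ring
      rw [i8]
      linarith)
  refine e8.trans ?_
  rw [← hV]
  have f1 : 1 / (2 * δ) * (∫ x in Ω, (Gl (p x) - cG) ^ 2) +
      1 / (2 * δ) * (∫ x in Ω, (p x - 1) ^ 2) +
      1 / (2 * δ) * (∫ x in Ω, (∑ j ∈ F, s j x) ^ 2) + (cG ^ 2 + 4 * δ ^ 2) / (2 * δ) * V =
      ((∫ x in Ω, (Gl (p x) - cG) ^ 2) + (∫ x in Ω, (p x - 1) ^ 2) +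
      (∫ x in Ω, (∑ j ∈ F, s j x) ^ 2) + (cG ^ 2 * V + 4 * δ ^ 2 * V)) / (2 * δ) := by
    ring
  rw [f1]
  apply div_le_div_of_nonneg_right _ (by positivity)
  linarith

private theorem c_bounds {n : ℕ} {Ω : Set (Sp n)} (hb : Bornology.IsBounded Ω)
    (hne : Ω.Nonempty) {θ : Sp n → ℝ} (hθ : ContinuousOn θ (closure Ω))
    (pos : ∀ x ∈ closure Ω, 0 < θ x) :
    ∃ a A : ℝ, 0 < a ∧ 0 < A ∧ ∀ x ∈ closure Ω, a ≤ θ x ∧ θ x ≤ A := by
  have hK := hb.isCompact_closure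
  obtain ⟨x1, hx1, h1⟩ := hK.exists_isMinOn hne.closure hθ
  obtain ⟨x2, hx2, h2⟩ := hK.exists_isMaxOn hne.closure hθ
  exact ⟨θ x1, θ x2, pos _ hx1, pos _ hx2, fun x hx => ⟨h1 hx, h2 hx⟩⟩

private theorem c_len {N : ℕ} (k : Fin N) (s : Fin N → ℝ) (R : ℝ)
    (h : ∀ j, s j ≤ R) :
    len k s ≤ R * (1 + (Finset.univ.filter (fun j => k < j)).card) := by
  unfold len Sab
  have h1 : ∑ j ∈ Finset.univ.filter (fun j => k < j), s j ≤
      (Finset.univ.filter (fun j => k < j)).card * R := by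
    refine (Finset.sum_le_card_nsmul _ _ R fun j _ => h j).trans (le_of_eq ?_)
    rw [nsmul_eq_mul]
  have := h k
  linarith

private theorem c_sh {n N : ℕ} {k : Fin N} {ε M a : ℝ} (hε : 0 < ε) (hε1 : ε ≤ 1)
    {θ : Sp n → ℝ} {u : Fin N → Sp n → ℝ} {x : Sp n} (ha : 0 < a) (hθ : a ≤ θ x)
    (hu : ∀ j, 0 ≤ u j x ∧ u j x ≤ M) :
    0 < sh k ε θ u x k ∧ ∀ j, 0 ≤ sh k ε θ u x j ∧ sh k ε θ u x j ≤ |M| / a + 1 := by
  have hp : 0 < θ x := ha.trans_le hθ
  have h1 : ∀ j, 0 ≤ u j x / θ x ∧ u j x / θ x ≤ |M| / a := fun j =>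
    ⟨div_nonneg (hu j).1 hp.le, div_le_div₀ (abs_nonneg M) ((hu j).2.trans (le_abs_self M)) ha hθ⟩
  refine ⟨?_, fun j => ?_⟩
  · unfold sh
    rw [if_pos rfl]
    have := (h1 k).1
    linarith
  · unfold sh
    have := h1 j
    by_cases hj : j = k
    · rw [if_pos hj]
      constructor <;> linarith
    · rw [if_neg hj]
      constructor <;> linarith

/-- C -/
theorem p_Ce (a1 : StmA1) (a2 : StmA2) : StmCe := by
  intro n N Ω d m k θ Dθ lθ P hB M
  set F : Finset (Fin N) := Finset.univ.filter (fun j => k < j) with hF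
  have hO := hB.isOpen
  have hb := hB.bdd
  have hθ1 : C1 Ω θ Dθ := hB.st.lap.c1
  have hθ := hθ1.cont
  have hDθ := hθ1.contD
  have pos := hB.st.pos
  obtain ⟨a, A, ha, hA, haA⟩ := c_bounds hb hB.nonempty hθ pos
  have hbc : ContinuousOn (fun x => ‖(θ x)⁻¹ • Dθ x‖) (closure Ω) :=
    ((hθ.inv₀ fun x hx => (pos x hx).ne').smul hDθ).norm
  obtain ⟨B0, hB0⟩ := hb.isCompact_closure.exists_bound_of_continuousOn
    (hbc.pow 2)
  have hBn : ∀ x ∈ closure Ω, 0 ≤ ‖(θ x)⁻¹ • Dθ x‖ ^ 2 ∧ ‖(θ x)⁻¹ • Dθ x‖ ^ 2 ≤ |B0| :=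
    fun x hx => ⟨sq_nonneg _, (le_abs_self _).trans ((hB0 x hx).trans (le_abs_self _))⟩
  set V := volume.real Ω with hV
  have hV0 : 0 < V := by
    rw [hV, Measure.real]
    exact ENNReal.toReal_pos (hO.measure_pos _ hB.nonempty).ne' hb.measure_lt_top.ne
  set β := ∫ x in Ω, ‖(θ x)⁻¹ • Dθ x‖ ^ 2 with hβ
  have hβ0 : 0 < β := by
    have h1 := c_int_le a2 hO hb (H := fun x => ‖Dθ x‖ ^ 2) (hDθ.norm.pow 2) (hbc.pow 2)
      (continuousOn_const (c := (0:ℝ))) (continuousOn_const (c := (0:ℝ))) (A ^ 2) 0 0 0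
      (fun x hx => by
        have h2 := pos x hx
        have h3 : ‖Dθ x‖ = θ x * ‖(θ x)⁻¹ • Dθ x‖ := by
          rw [norm_smul, norm_inv, Real.norm_of_nonneg h2.le, mul_inv_cancel_left₀ h2.ne']
        have h4 : θ x ^ 2 ≤ A ^ 2 := pow_le_pow_left₀ h2.le (haA x hx).2 2
        have h5 := mul_le_mul_of_nonneg_right h4 (sq_nonneg ‖(θ x)⁻¹ • Dθ x‖)
        rw [h3, mul_pow]
        simp only [Pi.pow_apply]
        linarith)
    have h2 := hB.nc
    have h3 : 0 < A ^ 2 * β := by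
      simp only [Pi.pow_apply] at h1
      linarith
    by_contra h4
    push Not at h4
    have := mul_nonpos_of_nonneg_of_nonpos (sq_nonneg A) h4
    linarith
  refine ⟨(|M| / a + 1) * (1 + F.card), ?_⟩
  intro L hL c C0 hc hC0 η₀ hη₀
  obtain ⟨η, hηe⟩ : ∃ η, η = η₀ / 2 := ⟨_, rfl⟩
  have hη : 0 < η := by
    rw [hηe]
    exact half_pos hη₀
  have hP := hB.hP
  set Q := A ^ 2 * C0 with hQ
  have hQ0 : 0 < Q := by positivity
  set δ := η / (4 * Q * V) with hδ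
  have hδ0 : 0 < δ := by positivity
  set τ0 := min (η * δ / Q) (V / 8) with hτ0
  have hτ00 : 0 < τ0 := lt_min (by positivity) (by positivity)
  set δ2 := min 1 (τ0 / (40 * V)) with hδ2
  have hδ20 : 0 < δ2 := lt_min one_pos (by positivity)
  set C1' := 2 * F.card * P + 2 * V * (2 + 2 * |B0| * F.card * P) / β with hC1
  have hC10 : 0 ≤ C1' := by positivity
  set S0 := 5 * P + C1' + 5 * (2 / δ2 + 2 * C1') + 1 with hS0
  have hS00 : 0 < S0 := by positivity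
  set ν := τ0 / (2 * S0) with hν
  have hν0 : 0 < ν := by positivity
  refine ⟨min (min ν 1) (η / (Q * V)), lt_min (lt_min hν0 one_pos) (by positivity),
    (min_le_left _ _).trans (min_le_right _ _), ?_⟩
  intro e he heν f g h hD hbd ε hε hε1 u Du hu hM hdis'
  have hdis := hdis'.trans ((min_le_left _ _).trans (min_le_left _ _))
  have heV : Q * (V * e) ≤ η := by
    have h1 : e ≤ η / (Q * V) := heν.trans (min_le_right _ _)
    have h2 : Q * V * e ≤ Q * V * (η / (Q * V)) := mul_le_mul_of_nonneg_left h1 (by positivity)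
    have h3 : Q * V * (η / (Q * V)) = η := by field_simp
    linarith
  -- the ratios
  have hsh : ∀ x ∈ closure Ω, 0 < sh k ε θ u x k ∧
      ∀ j, 0 ≤ sh k ε θ u x j ∧ sh k ε θ u x j ≤ |M| / a + 1 := fun x hx =>
    c_sh hε hε1 ha (haA x hx).1 fun j => hM j x hx
  have hdiv : ∀ j, C1 Ω (fun x => u j x / θ x) (Dsh θ Dθ u Du j) := fun j =>
    c_div a1 hO (hu j) hθ1 pos
  have hcs : ∀ j, ContinuousOn (fun x => sh k ε θ u x j) (closure Ω) := fun j =>
    (hdiv j).cont.add continuousOn_const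
  have hadm : ∀ x ∈ closure Ω, Adm k L (sh k ε θ u x) := fun x hx =>
    ⟨(hsh x hx).1, fun j => ((hsh x hx).2 j).1, (c_len k _ _ fun j => ((hsh x hx).2 j).2).trans hL⟩
  have hFk : ∀ j ∈ F, ∀ x, sh k ε θ u x j = u j x / θ x := by
    intro j hj x
    have h1 : j ≠ k := by
      rw [hF, Finset.mem_filter] at hj
      exact hj.2.ne'
    unfold sh
    rw [if_neg h1, add_zero]
  -- Poincaré
  have hpo : ∀ j, ∃ c : ℝ, ∫ x in Ω, (u j x / θ x - c) ^ 2 ≤ P * ∫ x in Ω, ‖Dsh θ Dθ u Du j x‖ ^ 2 :=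
    fun j => hB.poinc _ _ (hdiv j)
  choose cj hcj using hpo
  have hk1 : ContinuousOn (fun x => 1 - 1 / (u k x / θ x + ε)) (closure Ω) :=
    continuousOn_const.sub (continuousOn_const.div ((hdiv k).cont.add continuousOn_const)
      fun x hx => by
        have := (hsh x hx).1
        unfold sh at this
        rw [if_pos rfl] at this
        exact this.ne')
  have hG1 := c_comp a1 hO (hdiv k) (G := fun p => Gl (p + ε)) (G' := fun p => 1 - 1 / (p + ε))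
    (fun x hx => by
      have h1 := (hsh x hx).1
      unfold sh at h1
      rw [if_pos rfl] at h1
      have h2 := (((hasDerivAt_id (u k x / θ x)).add_const ε).sub_const 1).sub
        (((hasDerivAt_id (u k x / θ x)).add_const ε).log h1.ne')
      exact h2) hk1
  obtain ⟨cG, hcG⟩ := hB.poinc _ _ hG1
  have hsk : ∀ x, sh k ε θ u x k = u k x / θ x + ε := fun x => by
    unfold sh
    rw [if_pos rfl]
  have hq : ContinuousOn (fun x => (1 - 1 / (sh k ε θ u x k)) ^ 2 * ‖Dsh θ Dθ u Du k x‖ ^ 2)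
      (closure Ω) := by
    refine ContinuousOn.mul ?_ ((hdiv k).contD.norm.pow 2)
    refine ContinuousOn.pow ?_ 2
    exact continuousOn_const.sub (continuousOn_const.div (hcs k) fun x hx => (hsh x hx).1.ne')
  set κ := 2 * δ2 ^ 2 * V + (2 / δ2 + 2 * C1') * ν with hκ
  have hsum : 5 * P * ν + 5 * κ + C1' * ν ≤ τ0 := by
    have h1 : S0 * ν = τ0 / 2 := by
      rw [hν]
      field_simp
    have h2 : δ2 ^ 2 ≤ δ2 := by
      have : δ2 ≤ 1 := min_le_left _ _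
      nlinarith
    have h3 : δ2 * V ≤ τ0 / 40 := by
      have : δ2 ≤ τ0 / (40 * V) := min_le_right _ _
      calc δ2 * V ≤ τ0 / (40 * V) * V := mul_le_mul_of_nonneg_right this hV0.le
        _ = τ0 / 40 := by field_simp
    have h4 : δ2 ^ 2 * V ≤ δ2 * V := mul_le_mul_of_nonneg_right h2 hV0.le
    have h5 : 5 * P * ν + 5 * κ + C1' * ν = 10 * (δ2 ^ 2 * V) + (S0 - 1) * ν := by
      rw [hκ, hS0]
      ring
    rw [h5]
    linarith
  have hκ0 : 0 ≤ κ := by positivity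
  have hκV : κ ≤ V / 8 := by
    have h1 : τ0 ≤ V / 8 := min_le_right _ _
    have h2 : 0 ≤ 5 * P * ν := by positivity
    have h3 : 0 ≤ C1' * ν := by positivity
    linarith
  have key := c_core a2 hO hb F (fun j x => sh k ε θ u x j) (fun j x => ‖Dsh θ Dθ u Du j x‖ ^ 2)
    (fun x => ‖(θ x)⁻¹ • Dθ x‖ ^ 2) (fun x => sh k ε θ u x k)
    (fun x => (1 - 1 / (sh k ε θ u x k)) ^ 2 * ‖Dsh θ Dθ u Du k x‖ ^ 2) cj cG P |B0| β ν V C1' hV
    hV0 hcs (fun j => (hdiv j).contD.norm.pow 2) (hbc.pow 2) (hcs k) hq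
    (fun j x _ => sq_nonneg _) hBn (fun x _ => by positivity) (fun x hx => (hsh x hx).1)
    (abs_nonneg _) hP hβ hβ0 (fun j hj => by
      simp only [hFk j hj]
      exact hcj j) (by
      refine (le_of_eq ?_).trans (hcG.trans (le_of_eq ?_))
      · simp only [hsk]
      · simp only [hsk, norm_smul, mul_pow, Real.norm_eq_abs, sq_abs]) hdis rfl δ δ2 κ hδ0 hδ20
    hκ hκV
  -- the functional
  have hfs : ContinuousOn (fun x => f (sh k ε θ u x)) (closure Ω) := by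
    intro x hx
    have h1 := (hD.df (sh k ε θ u x) (hsh x hx).1 fun j => ((hsh x hx).2 j).1).continuousAt
    have h2 : ContinuousWithinAt (fun x => sh k ε θ u x) (closure Ω) x :=
      continuousWithinAt_pi.2 fun j => hcs j x hx
    exact h1.comp_continuousWithinAt h2
  have hcS : ContinuousOn (fun x => ∑ j ∈ F, sh k ε θ u x j) (closure Ω) :=
    continuousOn_finsetSum _ fun j _ => hcs j
  have hcG' : ContinuousOn (fun x => Gl (sh k ε θ u x k)) (closure Ω) :=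
    ((hcs k).sub continuousOn_const).sub ((hcs k).log fun x hx => (hsh x hx).1.ne')
  have hcP : ContinuousOn (fun x => Gl (sh k ε θ u x k) + |sh k ε θ u x k - 1| +
      ∑ j ∈ F, sh k ε θ u x j) (closure Ω) :=
    (hcG'.add ((hcs k).sub continuousOn_const).abs).add hcS
  have hi := c_int_le a2 hO hb (H := fun x => θ x ^ 2 * f (sh k ε θ u x))
    (F1 := fun _ => (0 : ℝ)) ((hθ.pow 2).mul hfs)
    continuousOn_const hcP (continuousOn_const (c := (0:ℝ))) 0 Q 0 (Q * e)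
    (fun x hx => by
      have h1 := hbd.fu _ (hadm x hx)
      have h2 : 0 ≤ Gl (sh k ε θ u x k) + |sh k ε θ u x k - 1| + ∑ j ∈ F, sh k ε θ u x j := by
        have := c_Gl_nonneg (hsh x hx).1
        have := abs_nonneg (sh k ε θ u x k - 1)
        have : 0 ≤ ∑ j ∈ F, sh k ε θ u x j := Finset.sum_nonneg fun j _ => ((hsh x hx).2 j).1
        linarith
      have h3 : θ x ^ 2 ≤ A ^ 2 := pow_le_pow_left₀ (pos x hx).le (haA x hx).2 2
      have h4 := mul_le_mul_of_nonneg_left h1 (sq_nonneg (θ x))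
      have h5 := mul_le_mul_of_nonneg_right h3 (mul_nonneg hC0.le (add_nonneg h2 he.le))
      have h6 : Sab k (sh k ε θ u x) = ∑ j ∈ F, sh k ε θ u x j := rfl
      rw [h6] at h4
      rw [hQ]
      linarith)
  unfold Phi
  have hfin : Q * ((5 * P * ν + 5 * κ + C1' * ν + 4 * δ ^ 2 * V) / (2 * δ)) ≤ η := by
    have h1 : Q * ((5 * P * ν + 5 * κ + C1' * ν + 4 * δ ^ 2 * V) / (2 * δ)) ≤
        Q * ((η * δ / Q + 4 * δ ^ 2 * V) / (2 * δ)) := by
      refine mul_le_mul_of_nonneg_left ?_ hQ0.le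
      refine div_le_div_of_nonneg_right ?_ (by positivity)
      have : τ0 ≤ η * δ / Q := min_le_left _ _
      linarith
    have h2 : Q * ((η * δ / Q + 4 * δ ^ 2 * V) / (2 * δ)) = η / 2 + 2 * Q * V * δ := by
      field_simp
      ring
    have h3 : 2 * Q * V * δ = η / 2 := by
      rw [hδ]
      field_simp
      ring
    linarith
  have hk2 := mul_le_mul_of_nonneg_left key hQ0.le
  linarith

end Pool.Agent.Lib.MP_d8ef8f_an.Gd
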