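import Pool.Agent.Lib.MP_d8ef8f_an.Ge.Dens

/-!
# Piece E2e: small functional implies closeness to `E_k` (approximate densities)
-/

set_option autoImplicit false

namespace Pool.Agent.Lib.MP_d8ef8f_an.Gd

open Set Filter Topology MeasureTheory

private theorem e2_sq (y δ : ℝ) (hy : 0 ≤ y) (hδ : 0 < δ) : y ^ 2 ≤ δ ^ 2 + y ^ 3 / δ := by
  rcases le_total y δ with h | h
  · have h1 : y ^ 2 ≤ δ ^ 2 := pow_le_pow_left₀ hy h 2
    have h2 : 0 ≤ y ^ 3 / δ := by positivity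
    linarith
  · have h1 : y ^ 2 ≤ y ^ 3 / δ := by
      rw [le_div_iff₀ hδ]
      have : y ^ 2 * δ ≤ y ^ 2 * y := mul_le_mul_of_nonneg_left h (sq_nonneg y)
      calc y ^ 2 * δ ≤ y ^ 2 * y := this
        _ = y ^ 3 := by ring
    have h2 : 0 ≤ δ ^ 2 := sq_nonneg δ
    linarith

theorem p_E2e (a2 : StmA2) : StmE2e := by
  intro n N Ω d m k θ Dθ lθ P B M
  have hc : IsCompact (closure Ω) := B.bdd.isCompact_closure
  have hne : (closure Ω).Nonempty := B.nonempty.closure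
  have hθc : ContinuousOn θ (closure Ω) := B.st.lap.c1.cont
  have hθp := B.st.pos
  obtain ⟨x₀, hx₀, hmin⟩ := hc.exists_isMinOn hne hθc
  obtain ⟨x₁, hx₁, hmax⟩ := hc.exists_isMaxOn hne hθc
  obtain ⟨a, ha⟩ : ∃ a, a = θ x₀ := ⟨_, rfl⟩
  obtain ⟨b, hb⟩ : ∃ b, b = θ x₁ := ⟨_, rfl⟩
  have ha0 : 0 < a := ha ▸ hθp x₀ hx₀
  have hb0 : 0 < b := hb ▸ hθp x₁ hx₁
  have hamin : ∀ x ∈ closure Ω, a ≤ θ x := fun x hx => ha ▸ hmin hx
  have hbmax : ∀ x ∈ closure Ω, θ x ≤ b := fun x hx => hb ▸ hmax hx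
  refine ⟨|M| / a + N * (|M| / a) + 1, ?_⟩
  intro L hL c C hc0 hC0 η hη
  obtain ⟨V, hV⟩ : ∃ V, V = (volume Ω).toReal := ⟨_, rfl⟩
  have hV0 : 0 ≤ V := hV ▸ ENNReal.toReal_nonneg
  have hVfin : volume Ω < ⊤ := B.bdd.measure_lt_top
  obtain ⟨A, hA⟩ : ∃ A, A = b ^ 2 := ⟨_, rfl⟩
  have hA0 : 0 < A := hA ▸ by positivity
  obtain ⟨β, hβ⟩ : ∃ β, β = c * a ^ 2 := ⟨_, rfl⟩
  have hβ0 : 0 < β := hβ ▸ by positivity
  have hAV : 0 < A * V + 1 := by positivity
  obtain ⟨δ, hδ⟩ : ∃ δ, δ = min 1 (η / (6 * (A * V + 1))) := ⟨_, rfl⟩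
  have hδ0 : 0 < δ := hδ ▸ lt_min one_pos (by positivity)
  have hδ1 : δ ≤ 1 := hδ ▸ min_le_left _ _
  have hδ2 : δ ≤ η / (6 * (A * V + 1)) := hδ ▸ min_le_right _ _
  obtain ⟨ν, hν⟩ : ∃ ν, ν = min 1 (min (η * δ * β / (6 * A)) (η / (6 * (A * V + 1)))) := ⟨_, rfl⟩
  have hν0 : 0 < ν := hν ▸ lt_min one_pos (lt_min (by positivity) (by positivity))
  have hν1 : ν ≤ 1 := hν ▸ min_le_left _ _
  have hν2 : ν ≤ η * δ * β / (6 * A) := hν ▸ (min_le_right _ _).trans (min_le_left _ _)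
  have hν3 : ν ≤ η / (6 * (A * V + 1)) := hν ▸ (min_le_right _ _).trans (min_le_right _ _)
  obtain ⟨I, hI⟩ : ∃ I, I = ∫ x in Ω, θ x ^ 2 := ⟨_, rfl⟩
  have hI0 : 0 ≤ I := hI ▸ setIntegral_nonneg B.isOpen.measurableSet fun x _ => sq_nonneg _
  have hCI : 0 ≤ C * I := by positivity
  have hν' : ν / (2 * (1 + C * I)) ≤ ν / 2 := by
    apply div_le_div_of_nonneg_left hν0.le (by norm_num)
    linarith
  refine ⟨ν / (2 * (1 + C * I)), by positivity, by linarith, ?_⟩
  intro e he heν f g h D hb' ε hε hεν' u huc hu hPhi'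
  have hεν : ε ≤ ν := by linarith
  have hε1 : ε ≤ 1 := hεν.trans hν1
  -- the ratios
  have hr : ∀ j, ∀ x ∈ closure Ω, 0 ≤ u j x / θ x ∧ u j x / θ x ≤ |M| / a := by
    intro j x hx
    have h1 := hu j x hx
    have h2 := hθp x hx
    refine ⟨div_nonneg h1.1 h2.le, ?_⟩
    exact div_le_div₀ (abs_nonneg M) (h1.2.trans (le_abs_self M)) ha0 (hamin x hx)
  have hsk : ∀ x, sh k ε θ u x k = u k x / θ x + ε := fun x => by
    unfold sh
    rw [if_pos rfl]
  have hsj : ∀ x j, k < j → sh k ε θ u x j = u j x / θ x := fun x j hj => by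
    unfold sh
    rw [if_neg hj.ne', add_zero]
  have hs0 : ∀ x ∈ closure Ω, ∀ j, 0 ≤ sh k ε θ u x j := by
    intro x hx j
    unfold sh
    have := (hr j x hx).1
    split_ifs <;> linarith
  have hskp : ∀ x ∈ closure Ω, 0 < sh k ε θ u x k := by
    intro x hx
    rw [hsk]
    have := (hr k x hx).1
    linarith
  have hAdm : ∀ x ∈ closure Ω, Adm k L (sh k ε θ u x) := by
    intro x hx
    refine ⟨hskp x hx, hs0 x hx, le_trans ?_ hL⟩
    have h1 : Sab k (sh k ε θ u x) ≤ N * (|M| / a) := by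
      unfold Sab
      have h2 : ∑ j ∈ Finset.univ.filter (fun j => k < j), sh k ε θ u x j ≤
          (Finset.univ.filter (fun j : Fin N => k < j)).card • (|M| / a) := by
        apply Finset.sum_le_card_nsmul
        intro j hj
        rw [hsj x j (Finset.mem_filter.mp hj).2]
        exact (hr j x hx).2
      have h3 : ((Finset.univ.filter (fun j : Fin N => k < j)).card : ℝ) ≤ N := by
        have h4 := Finset.card_filter_le (Finset.univ : Finset (Fin N)) (fun j => k < j)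
        rw [Finset.card_univ, Fintype.card_fin] at h4
        exact_mod_cast h4
      rw [nsmul_eq_mul] at h2
      exact h2.trans (mul_le_mul_of_nonneg_right h3 (by positivity))
    unfold len
    rw [hsk]
    have := (hr k x hx).2
    linarith
  -- the lower bound of the density
  have hlow : ∀ x ∈ closure Ω,
      β * (|sh k ε θ u x k - 1| ^ 3 + Sab k (sh k ε θ u x) ^ 2) ≤
        θ x ^ 2 * f (sh k ε θ u x) - θ x ^ 2 * (-(C * e)) := by
    intro x hx
    have h0 := hb'.fl _ (hAdm x hx)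
    have h1 : c * (|sh k ε θ u x k - 1| ^ 3 + Sab k (sh k ε θ u x) ^ 2) ≤
        f (sh k ε θ u x) - (-(C * e)) := by linarith
    have h2 : a ^ 2 ≤ θ x ^ 2 := pow_le_pow_left₀ ha0.le (hamin x hx) 2
    have h3 : 0 ≤ |sh k ε θ u x k - 1| ^ 3 + Sab k (sh k ε θ u x) ^ 2 := by positivity
    calc β * (|sh k ε θ u x k - 1| ^ 3 + Sab k (sh k ε θ u x) ^ 2)
        = a ^ 2 * (c * (|sh k ε θ u x k - 1| ^ 3 + Sab k (sh k ε θ u x) ^ 2)) := by
          rw [hβ]; ring
      _ ≤ θ x ^ 2 * (c * (|sh k ε θ u x k - 1| ^ 3 + Sab k (sh k ε θ u x) ^ 2)) :=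
          mul_le_mul_of_nonneg_right h2 (mul_nonneg hc0.le h3)
      _ ≤ θ x ^ 2 * (f (sh k ε θ u x) - (-(C * e))) := mul_le_mul_of_nonneg_left h1 (sq_nonneg _)
      _ = _ := by ring
  -- integrability
  have hshc : ContinuousOn (fun x => sh k ε θ u x) (closure Ω) := by
    rw [continuousOn_pi]
    intro j
    unfold sh
    exact ((huc j).div hθc (fun x hx => (hθp x hx).ne')).add continuousOn_const
  have hfc : ContinuousOn (fun x => f (sh k ε θ u x)) (closure Ω) := by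
    intro x hx
    exact ((D.df _ (hskp x hx) (hs0 x hx)).continuousAt).comp_continuousWithinAt (hshc x hx)
  have hI1 : IntegrableOn (fun x => θ x ^ 2 * f (sh k ε θ u x)) Ω :=
    a2 Ω B.bdd _ ((hθc.pow 2).mul hfc)
  have hI2 : IntegrableOn (fun x => θ x ^ 2 * (-(C * e))) Ω :=
    a2 Ω B.bdd _ ((hθc.pow 2).mul continuousOn_const)
  have hI3 : IntegrableOn (fun x => θ x ^ 2 * f (sh k ε θ u x) - θ x ^ 2 * (-(C * e))) Ω :=
    hI1.sub hI2
  have hF : ∫ x in Ω, (θ x ^ 2 * f (sh k ε θ u x) - θ x ^ 2 * (-(C * e))) ≤ ν := by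
    rw [integral_sub hI1 hI2, integral_mul_const, ← hI]
    have h1 : C * e * I ≤ ν / 2 := by
      have h2 : C * I * e ≤ C * I * (ν / (2 * (1 + C * I))) := mul_le_mul_of_nonneg_left heν hCI
      have h3 : C * I * (ν / (2 * (1 + C * I))) ≤ (1 + C * I) * (ν / (2 * (1 + C * I))) :=
        mul_le_mul_of_nonneg_right (by linarith) (by positivity)
      have h4 : (1 + C * I) * (ν / (2 * (1 + C * I))) = ν / 2 := by field_simp
      have h5 : C * e * I = C * I * e := by ring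
      linarith
    have hPhi : (∫ x in Ω, θ x ^ 2 * f (sh k ε θ u x)) ≤ ν / (2 * (1 + C * I)) := hPhi'
    have h6 : I * -(C * e) = -(C * e * I) := by ring
    linarith
  have hms : MeasurableSet Ω := B.isOpen.measurableSet
  constructor
  · have hpt : ∀ x ∈ Ω, (u k x - θ x) ^ 2 ≤ 2 * A * (δ ^ 2 + ε ^ 2) +
        2 * A / (δ * β) * (θ x ^ 2 * f (sh k ε θ u x) - θ x ^ 2 * (-(C * e))) := by
      intro x hx
      have hx' := subset_closure hx
      have h1 := hlow x hx'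
      have hθx := hθp x hx'
      have h2 : u k x - θ x = θ x * ((sh k ε θ u x k - 1) - ε) := by
        rw [hsk]
        field_simp
        ring
      have h3 : θ x ^ 2 ≤ A := hA ▸ pow_le_pow_left₀ hθx.le (hbmax x hx') 2
      have h4 := e2_sq |sh k ε θ u x k - 1| δ (abs_nonneg _) hδ0
      rw [sq_abs] at h4
      have h5 : ((sh k ε θ u x k - 1) - ε) ^ 2 ≤ 2 * ((sh k ε θ u x k - 1) ^ 2 + ε ^ 2) := by
        nlinarith [sq_nonneg ((sh k ε θ u x k - 1) + ε)]
      have h6 : β * |sh k ε θ u x k - 1| ^ 3 ≤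
          θ x ^ 2 * f (sh k ε θ u x) - θ x ^ 2 * (-(C * e)) := by
        have : 0 ≤ β * Sab k (sh k ε θ u x) ^ 2 := by positivity
        linarith
      have h7 : |sh k ε θ u x k - 1| ^ 3 / δ ≤
          1 / (δ * β) * (θ x ^ 2 * f (sh k ε θ u x) - θ x ^ 2 * (-(C * e))) := by
        calc |sh k ε θ u x k - 1| ^ 3 / δ
            = 1 / (δ * β) * (β * |sh k ε θ u x k - 1| ^ 3) := by
              field_simp
          _ ≤ _ := mul_le_mul_of_nonneg_left h6 (by positivity)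
      calc (u k x - θ x) ^ 2 = θ x ^ 2 * ((sh k ε θ u x k - 1) - ε) ^ 2 := by rw [h2]; ring
        _ ≤ A * (2 * ((sh k ε θ u x k - 1) ^ 2 + ε ^ 2)) :=
            mul_le_mul h3 h5 (sq_nonneg _) hA0.le
        _ ≤ A * (2 * ((δ ^ 2 + 1 / (δ * β) *
              (θ x ^ 2 * f (sh k ε θ u x) - θ x ^ 2 * (-(C * e)))) + ε ^ 2)) := by
            apply mul_le_mul_of_nonneg_left _ hA0.le
            linarith
        _ = _ := by ring
    have hI4 : IntegrableOn (fun x => (u k x - θ x) ^ 2) Ω :=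
      a2 Ω B.bdd _ (((huc k).sub hθc).pow 2)
    have hI5 : IntegrableOn (fun _ : Sp n => 2 * A * (δ ^ 2 + ε ^ 2)) Ω :=
      a2 Ω B.bdd _ continuousOn_const
    have hI6 : IntegrableOn (fun x => 2 * A / (δ * β) *
        (θ x ^ 2 * f (sh k ε θ u x) - θ x ^ 2 * (-(C * e)))) Ω := hI3.const_mul _
    have e1 : ∫ x in Ω, 2 * A / (δ * β) *
        (θ x ^ 2 * f (sh k ε θ u x) - θ x ^ 2 * (-(C * e))) = 2 * A / (δ * β) *
          ∫ x in Ω, (θ x ^ 2 * f (sh k ε θ u x) - θ x ^ 2 * (-(C * e))) :=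
      integral_const_mul (2 * A / (δ * β)) _
    have e2 : ∫ _ in Ω, 2 * A * (δ ^ 2 + ε ^ 2) = V * (2 * A * (δ ^ 2 + ε ^ 2)) := by
      rw [setIntegral_const, smul_eq_mul, hV]
      rfl
    have h2 : ∫ x in Ω, (2 * A * (δ ^ 2 + ε ^ 2) + 2 * A / (δ * β) *
        (θ x ^ 2 * f (sh k ε θ u x) - θ x ^ 2 * (-(C * e)))) =
        V * (2 * A * (δ ^ 2 + ε ^ 2)) + 2 * A / (δ * β) *
          ∫ x in Ω, (θ x ^ 2 * f (sh k ε θ u x) - θ x ^ 2 * (-(C * e))) := by
      rw [← e1, ← e2]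
      exact integral_add hI5 hI6
    have h1 : ∫ x in Ω, (u k x - θ x) ^ 2 ≤ ∫ x in Ω, (2 * A * (δ ^ 2 + ε ^ 2) +
        2 * A / (δ * β) * (θ x ^ 2 * f (sh k ε θ u x) - θ x ^ 2 * (-(C * e)))) :=
      setIntegral_mono_on hI4 (hI5.add hI6) hms hpt
    have h3 : ∫ x in Ω, (u k x - θ x) ^ 2 ≤ V * (2 * A * (δ ^ 2 + ε ^ 2)) +
        2 * A / (δ * β) * ν := by
      rw [h2] at h1
      have : 2 * A / (δ * β) *
          ∫ x in Ω, (θ x ^ 2 * f (sh k ε θ u x) - θ x ^ 2 * (-(C * e))) ≤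
          2 * A / (δ * β) * ν := mul_le_mul_of_nonneg_left hF (by positivity)
      exact h1.trans (add_le_add_right this _)
    have h4 : A * V / (A * V + 1) ≤ 1 := by
      rw [div_le_one hAV]
      linarith
    have hAV0 : 0 ≤ A * V := by positivity
    have h5 : A * V * δ ^ 2 ≤ η / 6 := by
      calc A * V * δ ^ 2 ≤ A * V * δ := by
            apply mul_le_mul_of_nonneg_left _ hAV0
            nlinarith
        _ ≤ A * V * (η / (6 * (A * V + 1))) := mul_le_mul_of_nonneg_left hδ2 hAV0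
        _ = (A * V / (A * V + 1)) * (η / 6) := by field_simp
        _ ≤ 1 * (η / 6) := mul_le_mul_of_nonneg_right h4 (by positivity)
        _ = η / 6 := one_mul _
    have h6 : A * V * ε ^ 2 ≤ η / 6 := by
      calc A * V * ε ^ 2 ≤ A * V * ν := by
            apply mul_le_mul_of_nonneg_left _ hAV0
            nlinarith
        _ ≤ A * V * (η / (6 * (A * V + 1))) := mul_le_mul_of_nonneg_left hν3 hAV0
        _ = (A * V / (A * V + 1)) * (η / 6) := by field_simp
        _ ≤ 1 * (η / 6) := mul_le_mul_of_nonneg_right h4 (by positivity)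
        _ = η / 6 := one_mul _
    have h7 : 2 * A / (δ * β) * ν ≤ η / 3 := by
      calc 2 * A / (δ * β) * ν ≤ 2 * A / (δ * β) * (η * δ * β / (6 * A)) :=
            mul_le_mul_of_nonneg_left hν2 (by positivity)
        _ = η / 3 := by
            field_simp
            norm_num
    have h8 : V * (2 * A * (δ ^ 2 + ε ^ 2)) = 2 * (A * V * δ ^ 2) + 2 * (A * V * ε ^ 2) := by
      ring
    rw [h8] at h3
    linarith
  · intro j hj
    have hpt : ∀ x ∈ Ω, u j x ^ 2 ≤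
        A / β * (θ x ^ 2 * f (sh k ε θ u x) - θ x ^ 2 * (-(C * e))) := by
      intro x hx
      have hx' := subset_closure hx
      have h1 := hlow x hx'
      have hθx := hθp x hx'
      have h2 : u j x = θ x * sh k ε θ u x j := by
        rw [hsj x j hj]
        field_simp
      have h3 : θ x ^ 2 ≤ A := hA ▸ pow_le_pow_left₀ hθx.le (hbmax x hx') 2
      have h4 : sh k ε θ u x j ≤ Sab k (sh k ε θ u x) := by
        unfold Sab
        exact Finset.single_le_sum (f := fun j => sh k ε θ u x j)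
          (fun i _ => hs0 x hx' i) (Finset.mem_filter.mpr ⟨Finset.mem_univ j, hj⟩)
      have h5 : sh k ε θ u x j ^ 2 ≤ Sab k (sh k ε θ u x) ^ 2 :=
        pow_le_pow_left₀ (hs0 x hx' j) h4 2
      have h6 : β * Sab k (sh k ε θ u x) ^ 2 ≤
          θ x ^ 2 * f (sh k ε θ u x) - θ x ^ 2 * (-(C * e)) := by
        have : 0 ≤ β * |sh k ε θ u x k - 1| ^ 3 := by positivity
        linarith
      calc u j x ^ 2 = θ x ^ 2 * sh k ε θ u x j ^ 2 := by rw [h2]; ring
        _ ≤ A * Sab k (sh k ε θ u x) ^ 2 := mul_le_mul h3 h5 (sq_nonneg _) hA0.le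
        _ = A / β * (β * Sab k (sh k ε θ u x) ^ 2) := by field_simp
        _ ≤ _ := mul_le_mul_of_nonneg_left h6 (by positivity)
    have hI4 : IntegrableOn (fun x => u j x ^ 2) Ω := a2 Ω B.bdd _ ((huc j).pow 2)
    have e1 : ∫ x in Ω, A / β * (θ x ^ 2 * f (sh k ε θ u x) - θ x ^ 2 * (-(C * e))) = A / β *
          ∫ x in Ω, (θ x ^ 2 * f (sh k ε θ u x) - θ x ^ 2 * (-(C * e))) :=
      integral_const_mul (A / β) _
    have h1 : ∫ x in Ω, u j x ^ 2 ≤
        ∫ x in Ω, A / β * (θ x ^ 2 * f (sh k ε θ u x) - θ x ^ 2 * (-(C * e))) :=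
      setIntegral_mono_on hI4 (hI3.const_mul (A / β)) hms hpt
    rw [e1] at h1
    have h2 : A / β * ∫ x in Ω, (θ x ^ 2 * f (sh k ε θ u x) - θ x ^ 2 * (-(C * e))) ≤
        A / β * ν := mul_le_mul_of_nonneg_left hF (by positivity)
    have h3 : A / β * ν ≤ η := by
      calc A / β * ν ≤ A / β * (η * δ * β / (6 * A)) :=
            mul_le_mul_of_nonneg_left hν2 (by positivity)
        _ = η * δ / 6 := by field_simp
        _ ≤ η * 1 / 6 := by
            apply div_le_div_of_nonneg_right _ (by norm_num)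
            exact mul_le_mul_of_nonneg_left hδ1 hη.le
        _ ≤ η := by linarith
    exact h1.trans (h2.trans h3)

end Pool.Agent.Lib.MP_d8ef8f_an.Gd
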