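import Pool.Agent.Lib.MP_d8ef8f_an.Ge.Dens
import Pool.Agent.Lib.MP_d8ef8f_an.Ff.At

/-!
# Attraction from approximate densities
-/

set_option autoImplicit false

namespace Pool.Agent.Lib.MP_d8ef8f_an.Gd

open Set Filter Topology MeasureTheory

theorem p_ZE (b1 : StmB1c) (b2 : StmB2c) (b3 : StmB3e) (c : StmCe) (d2 : StmD2) (e1 : StmE1e)
    (e2 : StmE2e) (e3 : StmE3e) (e4 : StmE4) {n N : ℕ} (Ω : Set (Sp n)) (d : Fin N → ℝ)
    (m : Sp n → ℝ) (k : Fin N) (θ : Sp n → ℝ) (Dθ : Sp n → Sp n) (lθ : Sp n → ℝ) (P : ℝ)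
    (B : Base Ω d m k θ Dθ lθ P) (hE : DensE d k) : Ff.AttrU Ω d m k θ := by
  intro M η hη
  obtain ⟨La, E2⟩ := e2 Ω d m k θ Dθ lθ P B M
  obtain ⟨Lb, C1'⟩ := c Ω d m k θ Dθ lθ P B M
  obtain ⟨Lc, B3⟩ := b3 Ω d m k θ Dθ lθ P B M
  obtain ⟨Ld, E1⟩ := e1 Ω d m k θ Dθ lθ P B M
  obtain ⟨Le, E3⟩ := e3 Ω d m k θ Dθ lθ P B M
  obtain ⟨L, hLa, hLb, hLc, hLd, hLe⟩ : ∃ L, La ≤ L ∧ Lb ≤ L ∧ Lc ≤ L ∧ Ld ≤ L ∧ Le ≤ L :=
    ⟨max La (max Lb (max Lc (max Ld Le))), le_max_left _ _,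
      (le_max_left _ _).trans (le_max_right _ _),
      ((le_max_left _ _).trans (le_max_right _ _)).trans (le_max_right _ _),
      (((le_max_left _ _).trans (le_max_right _ _)).trans (le_max_right _ _)).trans
        (le_max_right _ _),
      (((le_max_right _ _).trans (le_max_right _ _)).trans (le_max_right _ _)).trans
        (le_max_right _ _)⟩
  obtain ⟨c1, C1, hc1, hC1, F⟩ := hE L
  obtain ⟨ν₂, hν₂, hν₂1, E2⟩ := E2 L hLa c1 C1 hc1 hC1 η hη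
  obtain ⟨ν₁, hν₁, hν₁1, C1'⟩ := C1' L hLb c1 C1 hc1 hC1 (ν₂ / 2) (by positivity)
  obtain ⟨c0, C0, hc0, hC0, B3⟩ := B3 L hLc c1 C1 hc1 hC1
  have hr : 0 < c0 * ν₁ / (8 * C0) := by positivity
  refine ⟨c0 * ν₁ / (8 * C0), hr, ?_⟩
  intro A hA
  obtain ⟨K, D2⟩ := d2 Ω d m k θ Dθ lθ P B M A hA
  obtain ⟨M1, E3⟩ := E3 L hLe c1 C1 hc1 hC1 K
  set M2 := max M1 ν₂ with hM2
  obtain ⟨ε₀, hε₀, hε₀1, E1⟩ := E1 L hLd c1 C1 hc1 hC1 M2 (c0 * ν₁ / (8 * C0)) hr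
  obtain ⟨e, he, heν₂, heν₁, her⟩ : ∃ e, 0 < e ∧ e ≤ ν₂ ∧ e ≤ ν₁ ∧ e ≤ c0 * ν₁ / (8 * C0) :=
    ⟨min ν₂ (min ν₁ (c0 * ν₁ / (8 * C0))), lt_min hν₂ (lt_min hν₁ hr), min_le_left _ _,
      (min_le_right _ _).trans (min_le_left _ _), (min_le_right _ _).trans (min_le_right _ _)⟩
  have he1 : e ≤ 1 := heν₂.trans hν₂1
  obtain ⟨f, g, h, D, Db⟩ := F e he he1
  set ε := min ε₀ ν₂ with hε
  have hε0 : 0 < ε := lt_min hε₀ hν₂
  have hε1 : ε ≤ 1 := (min_le_left _ _).trans hε₀1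
  have hlt : ν₂ / 2 < M2 := lt_of_lt_of_le (by linarith) (le_max_right _ _)
  have hκ : 0 < c0 * ν₁ / 2 := by positivity
  refine ⟨(M2 - ν₂ / 2) / (c0 * ν₁ / 2), div_pos (by linarith) hκ, ?_⟩
  intro T hT a b hab hsub u ut Du lu hu hM hmass hlow t ht
  have hsubT : ∀ s ∈ Icc (a + 1) b, s ∈ T := fun s hs => hsub ⟨by linarith [hs.1], hs.2⟩
  have hbd : ∀ s ∈ Icc (a + 1) b, ∀ j, ∀ x ∈ closure Ω, 0 ≤ u j s x ∧ u j s x ≤ M :=
    fun s hs j x hx => ⟨hu.nonneg j s (hsubT s hs) x hx, hM j s ⟨by linarith [hs.1], hs.2⟩ x hx⟩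
  have hcont : ∀ s ∈ Icc (a + 1) b, ∀ j, ContinuousOn (u j s) (closure Ω) :=
    fun s hs j => (hu.lap j s (hsubT s hs)).c1.cont
  have key := e4 (a + 1) b (c0 * ν₁ / 2) (ν₂ / 2) M2 hab hκ hlt
    (fun s => Phi Ω k f θ ε (fun j => u j s))
    (fun s => ∫ x in Ω, θ x * ∑ j, g j (sh k ε θ (fun j => u j s) x) * ut j s x)
    (fun s hs => b2 Ω d m k θ Dθ lθ P B f g h D ε hε0 T hT u ut Du lu hu s (hsubT s hs)) ?_ ?_
    t ⟨by
      have := ht.1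
      have : 0 < (M2 - ν₂ / 2) / (c0 * ν₁ / 2) := div_pos (by linarith) hκ
      linarith [ht.1], ht.2⟩ ht.1
  · have ht' : t ∈ Icc (a + 1) b := ⟨by
      have : 0 < (M2 - ν₂ / 2) / (c0 * ν₁ / 2) := div_pos (by linarith) hκ
      linarith [ht.1], ht.2⟩
    refine E2 e he heν₂ f g h D Db ε hε0 (min_le_right _ _) (fun j => u j t) (hcont t ht')
      (hbd t ht') ?_
    have key' : Phi Ω k f θ ε (fun j => u j t) ≤ ν₂ / 2 := key
    linarith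
  · have h1 : a + 1 ∈ Icc (a + 1) b := ⟨le_refl _, hab⟩
    have := D2 T hT a (fun s hs => hsub ⟨hs.1, hs.2.trans hab⟩) u ut Du lu hu
      (fun j s hs x hx => hM j s ⟨hs.1, hs.2.trans hab⟩ x hx) hmass ε hε0 hε1
    exact (E3 e he he1 f g h D Db ε hε0 hε1 (fun j => u j (a + 1)) (hcont _ h1) (hbd _ h1)
      this).trans (le_max_left _ _)
  · intro s hs hys hyM
    have hsT := hsubT s hs
    have q : ∫ x in Ω, θ x * ∑ j, g j (sh k ε θ (fun j => u j s) x) * ut j s x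
        = ∫ x in Ω, θ x * ∑ j, g j (sh k ε θ (fun j => u j s) x) *
          (d j * lu j s x + u j s x * (m x - ∑ i, u i s x)) := by
      refine setIntegral_congr_fun B.isOpen.measurableSet fun x hx => ?_
      refine congrArg (fun q => θ x * q) ?_
      exact Finset.sum_congr rfl fun j _ => by rw [hu.eq j s hsT x (subset_closure hx)]
    have q' := b1 Ω d m k θ Dθ lθ P B f g h D ε hε0 (fun j => u j s) (fun j => Du j s)
      (fun j => lu j s) (fun j => hu.lap j s hsT) (fun j x hx => hu.nonneg j s hsT x hx)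
    have q'' := B3 e he he1 f g h D Db ε hε0 hε1 (fun j => u j s) (fun j => Du j s)
      (fun j => (hu.lap j s hsT).c1) (hbd s hs)
    have hDis : ν₁ < Dis Ω k θ Dθ ε (fun j => u j s) (fun j => Du j s) := by
      by_contra hcon
      have := C1' e he heν₁ f g h D Db ε hε0 hε1 (fun j => u j s) (fun j => Du j s)
        (fun j => (hu.lap j s hsT).c1) (hbd s hs) (not_lt.mp hcon)
      have hys' : ν₂ / 2 < Phi Ω k f θ ε (fun j => u j s) := hys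
      linarith
    have hE1 := E1 e he he1 f g h D Db ε hε0 (min_le_left _ _) (fun j => u j s) (hcont s hs)
      (hbd s hs) hyM
    have hL := hlow s ⟨by linarith [hs.1], hs.2⟩
    show (∫ x in Ω, θ x * ∑ j, g j (sh k ε θ (fun j => u j s) x) * ut j s x) ≤ -(c0 * ν₁ / 2)
    rw [q, q']
    refine q''.trans ?_
    have i1 : c0 * ν₁ ≤ c0 * Dis Ω k θ Dθ ε (fun j => u j s) (fun j => Du j s) :=
      mul_le_mul_of_nonneg_left hDis.le hc0.le
    have i2 := mul_le_mul_of_nonneg_left hL hC0.le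
    have i3 := mul_le_mul_of_nonneg_left hE1 hC0.le
    have i5 := mul_le_mul_of_nonneg_left her hC0.le
    have i4 : C0 * (c0 * ν₁ / (8 * C0)) = c0 * ν₁ / 8 := by
      field_simp
    rw [i4] at i2 i3 i5
    have i6 : 0 ≤ c0 * ν₁ := by positivity
    linarith

end Pool.Agent.Lib.MP_d8ef8f_an.Gd
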