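import Pool.Agent.Lib.MP_d8ef8f_an.Ge.B1
import Pool.Agent.Lib.MP_d8ef8f_an.Ge.B2
import Pool.Agent.Lib.MP_d8ef8f_an.Ge.B3
import Pool.Agent.Lib.MP_d8ef8f_an.Ge.C
import Pool.Agent.Lib.MP_d8ef8f_an.Ge.E1
import Pool.Agent.Lib.MP_d8ef8f_an.Ge.E2
import Pool.Agent.Lib.MP_d8ef8f_an.Ge.E3
import Pool.Agent.Lib.MP_d8ef8f_an.Ge.Z
import Pool.Agent.Lib.MP_d8ef8f_an.Gd.Main

/-!
# Attraction from approximate densities: assembly
-/

set_option autoImplicit false

namespace Pool.Agent.Lib.MP_d8ef8f_an.Gd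

open Set Filter Topology MeasureTheory

/-- a density is a constant family of approximate densities -/
theorem densE_of_dens {N : ℕ} {d : Fin N → ℝ} {k : Fin N} (h : ∃ f g h, Dens d k f g h) :
    DensE d k := by
  obtain ⟨f, g, h, D⟩ := h
  intro L
  obtain ⟨c, C, hc, hC, H⟩ := D.bd L
  refine ⟨c, C, hc, hC, fun e he _ => ⟨fun s => f s - f (ek k), g, h, ?_, ?_⟩⟩
  · exact
      { df := fun s hs h0 => (D.df s hs h0).sub_const _
        dg := D.dg
        ch := D.ch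
        low := D.low }
  · have hCe : 0 ≤ C * e := mul_nonneg hC.le he.le
    exact
      { qf := fun s hs z b => by
          have h1 := (H s hs).1 z b
          have h2 : 0 ≤ C * e * b ^ 2 := mul_nonneg hCe (sq_nonneg b)
          linarith
        rl := fun s hs => by
          have := (H s hs).2.1
          linarith
        ru := fun s hs => (H s hs).2.2.1
        gk := fun s hs => (H s hs).2.2.2.1
        fl := fun s hs => by
          have := (H s hs).2.2.2.2.1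
          linarith
        lg := fun s hs => (H s hs).2.2.2.2.2.1
        fu := fun s hs => by
          have := (H s hs).2.2.2.2.2.2
          rw [mul_add]
          linarith }

/-- **attraction property from approximate densities**, on a domain -/
theorem attrU_of_densE {n N : ℕ} {Ω : Set (Sp n)} (hΩ : Domain Ω) {m : Sp n → ℝ}
    (hm : ContinuousOn m (closure Ω)) (hnc : ∃ x ∈ closure Ω, ∃ y ∈ closure Ω, m x ≠ m y)
    {d : Fin N → ℝ} (hd : ∀ i, 0 < d i) (k : Fin N)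
    (hD : DensE d k) {θ : Sp n → ℝ} (hθ : IsSteady Ω (d k) m θ) :
    Ff.AttrU Ω d m k θ := by
  obtain ⟨P, hP0, hP⟩ := p_P Ω hΩ
  obtain ⟨Dθ, lθ, hst⟩ := hθ
  have hB : Base Ω d m k θ Dθ lθ P :=
    { isOpen := hΩ.isOpen, nonempty := hΩ.nonempty, bdd := hΩ.bdd, poinc := hP, hP := hP0,
      hd := hd, hm := hm, st := hst,
      nc := p_F2 p_A2 Ω hΩ.isOpen hΩ.nonempty hΩ.bdd P hP (d k) (hd k) m hm hnc θ Dθ lθ hst }
  exact p_ZE (p_B1c p_A1 p_A2) (p_B2c p_A3) (p_B3e p_A2) (p_Ce p_A1 p_A2)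
    (p_D2 p_A1 p_A2 p_A3 (p_D0 p_A2 p_A3) p_D1) (p_E1e p_A2) (p_E2e p_A2) (p_E3e p_A2) p_E4
    Ω d m k θ Dθ lθ P hB hD

end Pool.Agent.Lib.MP_d8ef8f_an.Gd
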