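import Pool.Agent.Lib.MP_d8ef8f_an.Ge.Dens
import Pool.Agent.Lib.MP_d8ef8f_an.Gd.B1

set_option autoImplicit false

namespace Pool.Agent.Lib.MP_d8ef8f_an.Gd

open Set Filter Topology MeasureTheory

variable {n N : ℕ} {Ω : Set (Sp n)}

theorem c1_gc (a1 : StmA1) (hΩ : IsOpen Ω) {k : Fin N} {f : (Fin N → ℝ) → ℝ}
    {g : Fin N → (Fin N → ℝ) → ℝ} {h : Fin N → Fin N → (Fin N → ℝ) → ℝ} (D : DensC k f g h)
    {θ : Sp n → ℝ} {Dθ : Sp n → Sp n} (hθ : C1 Ω θ Dθ)
    (hp : ∀ x ∈ closure Ω, 0 < θ x) {ε : ℝ} (hε : 0 < ε) {u : Fin N → Sp n → ℝ}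
    {Du : Fin N → Sp n → Sp n}
    (hu : ∀ j, C1 Ω (u j) (Du j)) (hu0 : ∀ j, ∀ x ∈ closure Ω, 0 ≤ u j x) (j : Fin N) :
    C1 Ω (fun x => g j (sh k ε θ u x)) (Gg k h θ Dθ ε u Du j) := by
  refine a1 Ω hΩ (fun i x => sh k ε θ u x i) (fun i x => Dsh θ Dθ u Du i x)
    (fun i => c1_sh hθ hp ε hu i) (g j) (h j) ?_ ?_
  · intro x hx
    exact D.dg j _ (sh_pos hp hε hu0 hx) (fun i => sh_nonneg hp hε hu0 hx i)
  · intro i
    refine (D.ch j i).comp (continuousOn_pi.2 fun i => (c1_sh hθ hp ε hu i).cont) ?_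
    intro x hx
    exact ⟨sh_pos hp hε hu0 hx, fun i => sh_nonneg hp hε hu0 hx i⟩

theorem p_B1c (a1 : StmA1) (a2 : StmA2) : StmB1c := by
  intro n N Ω d m k θ Dθ lθ P B f g h D ε hε u Du lu hu hu0
  have hp := B.st.pos
  have hθ := B.st.lap.c1
  have hm := B.isOpen.measurableSet
  have hσ : ∀ j, C1 Ω (fun x => u j x / θ x) (fun x => Dsh θ Dθ u Du j x) := fun j =>
    C1.div (hu j).c1 hθ hp
  have hg : ∀ j, C1 Ω (fun x => g j (sh k ε θ u x)) (Gg k h θ Dθ ε u Du j) := fun j =>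
    c1_gc a1 B.isOpen D hθ hp hε (fun j => (hu j).c1) hu0 j
  have hΨ : ∀ j, C1 Ω (fun x => θ x * g j (sh k ε θ u x))
      (fun x => θ x • Gg k h θ Dθ ε u Du j x + g j (sh k ε θ u x) • Dθ x) := fun j =>
    C1.mul hθ (hg j)
  have hR : C1 Ω (fun x => ∑ j, (u j x / θ x) * g j (sh k ε θ u x))
      (fun x => ∑ j, (g j (sh k ε θ u x) • Dsh θ Dθ u Du j x
          + (u j x / θ x) • Gg k h θ Dθ ε u Du j x)) := by
    refine (C1.sum Finset.univ (fun j _ => C1.mul (hσ j) (hg j))).congr rfl ?_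
    intro x _
    exact Finset.sum_congr rfl fun j _ => add_comm _ _
  have hΨR := C1.mul hθ hR
  have G1 : ∀ j, ∫ x in Ω, lu j x * (θ x * g j (sh k ε θ u x))
      = - ∫ x in Ω, inner ℝ (Du j x)
        (θ x • Gg k h θ Dθ ε u Du j x + g j (sh k ε θ u x) • Dθ x) := fun j =>
    (hu j).green _ _ (hΨ j)
  have G2 := B.st.lap.green _ _ hΨR
  -- integrability
  have I1 : ∀ j, IntegrableOn (fun x => lu j x * (θ x * g j (sh k ε θ u x))) Ω := fun j =>
    a2 Ω B.bdd _ ((hu j).cont.mul (hΨ j).cont)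
  have I2 : IntegrableOn (fun x => lθ x * (θ x * ∑ j, (u j x / θ x) * g j (sh k ε θ u x))) Ω :=
    a2 Ω B.bdd _ (B.st.lap.cont.mul hΨR.cont)
  have I3 : ∀ j, IntegrableOn (fun x => inner ℝ (Du j x)
        (θ x • Gg k h θ Dθ ε u Du j x + g j (sh k ε θ u x) • Dθ x)) Ω := fun j =>
    a2 Ω B.bdd _ ((hu j).c1.contD.inner (hΨ j).contD)
  have I4 : IntegrableOn (fun x => inner ℝ (Dθ x)
      (θ x • (∑ j, (g j (sh k ε θ u x) • Dsh θ Dθ u Du j x
          + (u j x / θ x) • Gg k h θ Dθ ε u Du j x))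
          + (∑ j, (u j x / θ x) * g j (sh k ε θ u x)) • Dθ x)) Ω :=
    a2 Ω B.bdd _ (hθ.contD.inner hΨR.contD)
  have cU : ContinuousOn (fun x => ∑ i, u i x) (closure Ω) :=
    continuousOn_finsetSum _ fun i _ => (hu i).c1.cont
  have I5 : IntegrableOn (fun x => θ x ^ 3 * ((∑ i, u i x) / θ x - 1) *
              ∑ j, (u j x / θ x) * g j (sh k ε θ u x)) Ω := by
    refine a2 Ω B.bdd _ (((hθ.cont.pow 3).mul
      ((cU.div hθ.cont fun x hx => (hp x hx).ne').sub continuousOn_const)).mul hR.cont)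
  -- the quadratic form
  have Q1 : ∫ x in Ω, θ x ^ 2 * ∑ c : Fin n, Qf d k g h (sh k ε θ u x)
              (fun j => Dsh θ Dθ u Du j x c) (((θ x)⁻¹ • Dθ x) c)
      = (∑ j, d j * ∫ x in Ω, inner ℝ (Du j x)
        (θ x • Gg k h θ Dθ ε u Du j x + g j (sh k ε θ u x) • Dθ x))
        - d k * ∫ x in Ω, inner ℝ (Dθ x)
      (θ x • (∑ j, (g j (sh k ε θ u x) • Dsh θ Dθ u Du j x
          + (u j x / θ x) • Gg k h θ Dθ ε u Du j x))
          + (∑ j, (u j x / θ x) * g j (sh k ε θ u x)) • Dθ x) := by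
    have e : ∀ x ∈ Ω, θ x ^ 2 * ∑ c : Fin n, Qf d k g h (sh k ε θ u x)
              (fun j => Dsh θ Dθ u Du j x c) (((θ x)⁻¹ • Dθ x) c)
      = (∑ j, d j * inner ℝ (Du j x)
        (θ x • Gg k h θ Dθ ε u Du j x + g j (sh k ε θ u x) • Dθ x))
        - d k * inner ℝ (Dθ x)
      (θ x • (∑ j, (g j (sh k ε θ u x) • Dsh θ Dθ u Du j x
          + (u j x / θ x) • Gg k h θ Dθ ε u Du j x))
          + (∑ j, (u j x / θ x) * g j (sh k ε θ u x)) • Dθ x) := fun x hx =>
      (vec_id d k g h θ Dθ ε u Du x (hp x (subset_closure hx))).symm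
    rw [setIntegral_congr_fun hm e, integral_sub (integrable_finsetSum _ fun j _ =>
      (I3 j).const_mul (d j)) (I4.const_mul (d k)), integral_finsetSum _ fun j _ =>
      (I3 j).const_mul (d j), integral_const_mul]
    simp_rw [integral_const_mul]
  -- the left side
  have L1 : ∀ x ∈ Ω, θ x * ∑ j, g j (sh k ε θ u x) * (d j * lu j x + u j x * (m x - ∑ i, u i x))
      = (∑ j, d j * (lu j x * (θ x * g j (sh k ε θ u x))))
        - d k * (lθ x * (θ x * ∑ j, (u j x / θ x) * g j (sh k ε θ u x)))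
        - θ x ^ 3 * ((∑ i, u i x) / θ x - 1) * ∑ j, (u j x / θ x) * g j (sh k ε θ u x) := by
    intro x hx
    have hx' := subset_closure hx
    have h0 := (hp x hx').ne'
    have e1 : (∑ j, g j (sh k ε θ u x) * (d j * lu j x + u j x * (m x - ∑ i, u i x)))
        = (∑ j, d j * (lu j x * g j (sh k ε θ u x)))
          + θ x * (∑ j, (u j x / θ x) * g j (sh k ε θ u x)) * (m x - ∑ i, u i x) := by
      rw [Finset.mul_sum, Finset.sum_mul, ← Finset.sum_add_distrib]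
      refine Finset.sum_congr rfl fun j _ => ?_
      field_simp
    have e2 : (∑ j, d j * (lu j x * (θ x * g j (sh k ε θ u x))))
        = θ x * ∑ j, d j * (lu j x * g j (sh k ε θ u x)) := by
      rw [Finset.mul_sum]
      exact Finset.sum_congr rfl fun j _ => by ring
    have e3 := B.st.eq x hx'
    rw [e1, e2]
    generalize (∑ j, (u j x / θ x) * g j (sh k ε θ u x)) = R
    generalize (∑ i, u i x) = U
    generalize (∑ j, d j * (lu j x * g j (sh k ε θ u x))) = A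
    have e4 : θ x ^ 3 * (U / θ x - 1) = θ x ^ 2 * (U - θ x) := by field_simp
    rw [e4]
    linear_combination (θ x * R) * e3
  have I6 : IntegrableOn (fun x => (∑ j, d j * (lu j x * (θ x * g j (sh k ε θ u x))))
        - d k * (lθ x * (θ x * ∑ j, (u j x / θ x) * g j (sh k ε θ u x)))) Ω :=
    (integrable_finsetSum _ fun j _ => (I1 j).const_mul (d j)).sub (I2.const_mul (d k))
  rw [setIntegral_congr_fun hm L1, integral_sub I6 I5,
      integral_sub (integrable_finsetSum _ fun j _ => (I1 j).const_mul (d j)) (I2.const_mul (d k)),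
      integral_finsetSum _ fun j _ => (I1 j).const_mul (d j), integral_const_mul, Q1]
  simp_rw [integral_const_mul]
  rw [G2]
  simp_rw [G1]
  simp only [mul_neg, Finset.sum_neg_distrib]
  ring


end Pool.Agent.Lib.MP_d8ef8f_an.Gd
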