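import Pool.Agent.Lib.MP_d8ef8f_an.Gd.Stm

/-!
# Approximate Lyapunov densities

A density for the base species `k` may be given by a family of `C²` functions which satisfy the
required inequalities up to small additive errors.
-/

set_option autoImplicit false

namespace Pool.Agent.Lib.MP_d8ef8f_an.Gd

open Set Filter Topology MeasureTheory

/-- `f` is `C²` with gradient `g` and Hessian `h` on `{s k > 0, s ≥ 0}` and depends only on the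
species `≥ k`. -/
structure DensC {N : ℕ} (k : Fin N) (f : (Fin N → ℝ) → ℝ)
    (g : Fin N → (Fin N → ℝ) → ℝ) (h : Fin N → Fin N → (Fin N → ℝ) → ℝ) : Prop where
  /-- gradient -/
  df : ∀ s : Fin N → ℝ, 0 < s k → (∀ j, 0 ≤ s j) →
    HasFDerivAt f (∑ i, g i s • (ContinuousLinearMap.proj i : (Fin N → ℝ) →L[ℝ] ℝ)) s
  /-- Hessian -/
  dg : ∀ i, ∀ s : Fin N → ℝ, 0 < s k → (∀ j, 0 ≤ s j) →
    HasFDerivAt (g i) (∑ j, h i j s • (ContinuousLinearMap.proj j : (Fin N → ℝ) →L[ℝ] ℝ)) s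
  ch : ∀ i j, ContinuousOn (h i j) {s | 0 < s k ∧ ∀ j, 0 ≤ s j}
  /-- `f` does not depend on the species below `k` -/
  low : ∀ j, j < k → ∀ s, g j s = 0

/-- the inequalities of a Lyapunov density on `Adm k L`, up to the error `C * e` -/
structure DensB {N : ℕ} (d : Fin N → ℝ) (k : Fin N) (L c C e : ℝ) (f : (Fin N → ℝ) → ℝ)
    (g : Fin N → (Fin N → ℝ) → ℝ) (h : Fin N → Fin N → (Fin N → ℝ) → ℝ) : Prop where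
  qf : ∀ s, Adm k L s → ∀ (z : Fin N → ℝ) (b : ℝ),
    c * ((1 - 1 / s k) ^ 2 * z k ^ 2 + (∑ j ∈ Finset.univ.filter (fun j => k < j), z j ^ 2)
      + b ^ 2 * Sab k s ^ 2) - C * e * b ^ 2 ≤ Qf d k g h s z b
  rl : ∀ s, Adm k L s → c * |len k s - 1| ^ 3 - C * e ≤ (len k s - 1) * rad g s
  ru : ∀ s, Adm k L s → |rad g s| ≤ C
  gk : ∀ s, Adm k L s → |g k s| ≤ C / s k
  fl : ∀ s, Adm k L s → c * (|s k - 1| ^ 3 + Sab k s ^ 2) - C * e ≤ f s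
  lg : ∀ s, Adm k L s → - Real.log (s k) ≤ C * (1 + f s)
  fu : ∀ s, Adm k L s → f s ≤ C * (Gl (s k) + |s k - 1| + Sab k s + e)

/-- approximate Lyapunov densities for the base species `k` exist -/
def DensE {N : ℕ} (d : Fin N → ℝ) (k : Fin N) : Prop :=
  ∀ L : ℝ, ∃ c C : ℝ, 0 < c ∧ 0 < C ∧ ∀ e : ℝ, 0 < e → e ≤ 1 →
    ∃ f g h, DensC k f g h ∧ DensB d k L c C e f g h


/-- **B1c** `StmB1` for `DensC` -/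
def StmB1c : Prop :=
  ∀ {n N : ℕ} (Ω : Set (Sp n)) (d : Fin N → ℝ) (m : Sp n → ℝ) (k : Fin N) (θ : Sp n → ℝ)
    (Dθ : Sp n → Sp n) (lθ : Sp n → ℝ) (P : ℝ), Base Ω d m k θ Dθ lθ P →
    ∀ (f : (Fin N → ℝ) → ℝ) (g : Fin N → (Fin N → ℝ) → ℝ) (h : Fin N → Fin N → (Fin N → ℝ) → ℝ),
      DensC k f g h →
    ∀ (ε : ℝ), 0 < ε →
    ∀ (u : Fin N → Sp n → ℝ) (Du : Fin N → Sp n → Sp n) (lu : Fin N → Sp n → ℝ),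
      (∀ j, NeuLap Ω (u j) (Du j) (lu j)) → (∀ j, ∀ x ∈ closure Ω, 0 ≤ u j x) →
      ∫ x in Ω, θ x * ∑ j, g j (sh k ε θ u x) * (d j * lu j x + u j x * (m x - ∑ i, u i x))
        = - (∫ x in Ω, θ x ^ 3 * ((∑ i, u i x) / θ x - 1) *
              ∑ j, (u j x / θ x) * g j (sh k ε θ u x))
          - ∫ x in Ω, θ x ^ 2 * ∑ c : Fin n, Qf d k g h (sh k ε θ u x)
              (fun j => Dsh θ Dθ u Du j x c) (((θ x)⁻¹ • Dθ x) c)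

/-- **B2c** `StmB2` for `DensC` -/
def StmB2c : Prop :=
  ∀ {n N : ℕ} (Ω : Set (Sp n)) (d : Fin N → ℝ) (m : Sp n → ℝ) (k : Fin N) (θ : Sp n → ℝ)
    (Dθ : Sp n → Sp n) (lθ : Sp n → ℝ) (P : ℝ), Base Ω d m k θ Dθ lθ P →
    ∀ (f : (Fin N → ℝ) → ℝ) (g : Fin N → (Fin N → ℝ) → ℝ) (h : Fin N → Fin N → (Fin N → ℝ) → ℝ),
      DensC k f g h →
    ∀ (ε : ℝ), 0 < ε → ∀ (T : Set ℝ), IsOpen T →
    ∀ (u ut : Fin N → ℝ → Sp n → ℝ) (Du : Fin N → ℝ → Sp n → Sp n) (lu : Fin N → ℝ → Sp n → ℝ),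
      IsSol Ω d m T u ut Du lu → ∀ t ∈ T,
      HasDerivAt (fun t => Phi Ω k f θ ε (fun j => u j t))
        (∫ x in Ω, θ x * ∑ j, g j (sh k ε θ (fun j => u j t) x) * ut j t x) t

/-- **B3e** the inequality, with an error `C₀ e`; `L` depends only on `M` (and `θ`, `N`), the
constants `c₀, C₀` only on `c, C` (and `M`, ...). -/
def StmB3e : Prop :=
  ∀ {n N : ℕ} (Ω : Set (Sp n)) (d : Fin N → ℝ) (m : Sp n → ℝ) (k : Fin N) (θ : Sp n → ℝ)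
    (Dθ : Sp n → Sp n) (lθ : Sp n → ℝ) (P : ℝ), Base Ω d m k θ Dθ lθ P → ∀ M : ℝ,
    ∃ L₀ : ℝ, ∀ L : ℝ, L₀ ≤ L → ∀ c C : ℝ, 0 < c → 0 < C →
    ∃ c₀ C₀ : ℝ, 0 < c₀ ∧ 0 < C₀ ∧ ∀ e : ℝ, 0 < e → e ≤ 1 →
    ∀ (f : (Fin N → ℝ) → ℝ) (g : Fin N → (Fin N → ℝ) → ℝ) (h : Fin N → Fin N → (Fin N → ℝ) → ℝ),
      DensC k f g h → DensB d k L c C e f g h → ∀ (ε : ℝ), 0 < ε → ε ≤ 1 →
    ∀ (u : Fin N → Sp n → ℝ) (Du : Fin N → Sp n → Sp n),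
      (∀ j, C1 Ω (u j) (Du j)) → (∀ j, ∀ x ∈ closure Ω, 0 ≤ u j x ∧ u j x ≤ M) →
      - (∫ x in Ω, θ x ^ 3 * ((∑ i, u i x) / θ x - 1) *
              ∑ j, (u j x / θ x) * g j (sh k ε θ u x))
          - (∫ x in Ω, θ x ^ 2 * ∑ c : Fin n, Qf d k g h (sh k ε θ u x)
              (fun j => Dsh θ Dθ u Du j x c) (((θ x)⁻¹ • Dθ x) c))
        ≤ - c₀ * Dis Ω k θ Dθ ε u Du
          + C₀ * (∫ x in Ω, ∑ j ∈ Finset.univ.filter (fun j => j < k), u j x)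
          + C₀ * (∫ x in Ω, ε / (u k x / θ x + ε)) + C₀ * e

/-- **Ce** small dissipation implies small functional -/
def StmCe : Prop :=
  ∀ {n N : ℕ} (Ω : Set (Sp n)) (d : Fin N → ℝ) (m : Sp n → ℝ) (k : Fin N) (θ : Sp n → ℝ)
    (Dθ : Sp n → Sp n) (lθ : Sp n → ℝ) (P : ℝ), Base Ω d m k θ Dθ lθ P → ∀ M : ℝ,
    ∃ L₀ : ℝ, ∀ L : ℝ, L₀ ≤ L → ∀ c C : ℝ, 0 < c → 0 < C → ∀ η : ℝ, 0 < η →
    ∃ ν : ℝ, 0 < ν ∧ ν ≤ 1 ∧ ∀ e : ℝ, 0 < e → e ≤ ν →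
    ∀ (f : (Fin N → ℝ) → ℝ) (g : Fin N → (Fin N → ℝ) → ℝ) (h : Fin N → Fin N → (Fin N → ℝ) → ℝ),
      DensC k f g h → DensB d k L c C e f g h → ∀ (ε : ℝ), 0 < ε → ε ≤ 1 →
    ∀ (u : Fin N → Sp n → ℝ) (Du : Fin N → Sp n → Sp n),
      (∀ j, C1 Ω (u j) (Du j)) → (∀ j, ∀ x ∈ closure Ω, 0 ≤ u j x ∧ u j x ≤ M) →
      Dis Ω k θ Dθ ε u Du ≤ ν → Phi Ω k f θ ε u ≤ η

/-- **E1e** the error term -/
def StmE1e : Prop :=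
  ∀ {n N : ℕ} (Ω : Set (Sp n)) (d : Fin N → ℝ) (m : Sp n → ℝ) (k : Fin N) (θ : Sp n → ℝ)
    (Dθ : Sp n → Sp n) (lθ : Sp n → ℝ) (P : ℝ), Base Ω d m k θ Dθ lθ P → ∀ M : ℝ,
    ∃ L₀ : ℝ, ∀ L : ℝ, L₀ ≤ L → ∀ c C : ℝ, 0 < c → 0 < C → ∀ M' : ℝ, ∀ η : ℝ, 0 < η →
    ∃ ε₀ : ℝ, 0 < ε₀ ∧ ε₀ ≤ 1 ∧ ∀ e : ℝ, 0 < e → e ≤ 1 →
    ∀ (f : (Fin N → ℝ) → ℝ) (g : Fin N → (Fin N → ℝ) → ℝ) (h : Fin N → Fin N → (Fin N → ℝ) → ℝ),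
      DensC k f g h → DensB d k L c C e f g h → ∀ (ε : ℝ), 0 < ε → ε ≤ ε₀ →
    ∀ (u : Fin N → Sp n → ℝ), (∀ j, ContinuousOn (u j) (closure Ω)) →
      (∀ j, ∀ x ∈ closure Ω, 0 ≤ u j x ∧ u j x ≤ M) → Phi Ω k f θ ε u ≤ M' →
      ∫ x in Ω, ε / (u k x / θ x + ε) ≤ η

/-- **E2e** small functional implies closeness to `E_k` -/
def StmE2e : Prop :=
  ∀ {n N : ℕ} (Ω : Set (Sp n)) (d : Fin N → ℝ) (m : Sp n → ℝ) (k : Fin N) (θ : Sp n → ℝ)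
    (Dθ : Sp n → Sp n) (lθ : Sp n → ℝ) (P : ℝ), Base Ω d m k θ Dθ lθ P → ∀ M : ℝ,
    ∃ L₀ : ℝ, ∀ L : ℝ, L₀ ≤ L → ∀ c C : ℝ, 0 < c → 0 < C → ∀ η : ℝ, 0 < η →
    ∃ ν : ℝ, 0 < ν ∧ ν ≤ 1 ∧ ∀ e : ℝ, 0 < e → e ≤ ν →
    ∀ (f : (Fin N → ℝ) → ℝ) (g : Fin N → (Fin N → ℝ) → ℝ) (h : Fin N → Fin N → (Fin N → ℝ) → ℝ),
      DensC k f g h → DensB d k L c C e f g h → ∀ (ε : ℝ), 0 < ε → ε ≤ ν →
    ∀ (u : Fin N → Sp n → ℝ), (∀ j, ContinuousOn (u j) (closure Ω)) →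
      (∀ j, ∀ x ∈ closure Ω, 0 ≤ u j x ∧ u j x ≤ M) → Phi Ω k f θ ε u ≤ ν →
      (∫ x in Ω, (u k x - θ x) ^ 2) ≤ η ∧ ∀ j, k < j → (∫ x in Ω, u j x ^ 2) ≤ η

/-- **E3e** the functional is bounded after time one -/
def StmE3e : Prop :=
  ∀ {n N : ℕ} (Ω : Set (Sp n)) (d : Fin N → ℝ) (m : Sp n → ℝ) (k : Fin N) (θ : Sp n → ℝ)
    (Dθ : Sp n → Sp n) (lθ : Sp n → ℝ) (P : ℝ), Base Ω d m k θ Dθ lθ P → ∀ M : ℝ,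
    ∃ L₀ : ℝ, ∀ L : ℝ, L₀ ≤ L → ∀ c C : ℝ, 0 < c → 0 < C → ∀ K : ℝ, ∃ M' : ℝ,
    ∀ e : ℝ, 0 < e → e ≤ 1 →
    ∀ (f : (Fin N → ℝ) → ℝ) (g : Fin N → (Fin N → ℝ) → ℝ) (h : Fin N → Fin N → (Fin N → ℝ) → ℝ),
      DensC k f g h → DensB d k L c C e f g h → ∀ (ε : ℝ), 0 < ε → ε ≤ 1 →
    ∀ (u : Fin N → Sp n → ℝ), (∀ j, ContinuousOn (u j) (closure Ω)) →
      (∀ j, ∀ x ∈ closure Ω, 0 ≤ u j x ∧ u j x ≤ M) →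
      (∫ x in Ω, max 0 (- Real.log (u k x / θ x + ε))) ≤ K → Phi Ω k f θ ε u ≤ M'

end Pool.Agent.Lib.MP_d8ef8f_an.Gd
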